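import Mathlib
import Pool.Agent.K4H46.CW.WT

set_option autoImplicit false

/-! Sets with nested sections. -/

namespace Pool.Agent.K4H46.OW

open MeasureTheory Set Complex
open scoped ENNReal NNReal RealInnerProductSpace
open Pool.Agent.K4H46.RX Pool.Agent.K4H46.CW

/-- an affine change of variables on the line -/
theorem aff_lint (c d : ℝ) (hc : c ≠ 0) (w : ℝ → ℝ≥0∞) (hw : Measurable w) :
    ∫⁻ s : ℝ, w (c * s + d) = ENNReal.ofReal (1 / |c|) * ∫⁻ t, w t := by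
  have h4 : ∫⁻ s : ℝ, w (c * s + d) = ∫⁻ s : ℝ, (fun t => w (t + d)) (c * s) := rfl
  rw [h4]
  have h5 := Measure.map_addHaar_smul (volume : Measure ℝ) hc
  have hwt : Measurable fun t : ℝ => w (t + d) := hw.comp (by fun_prop)
  have h6 : ∫⁻ a, w (a + d) ∂(Measure.map (c • ·) (volume : Measure ℝ)) =
      ∫⁻ a : ℝ, (fun t => w (t + d)) (c * a) :=
    lintegral_map hwt (measurable_const_smul _)
  rw [← h6, h5, lintegral_smul_measure, smul_eq_mul, Module.finrank_self, pow_one, one_div,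
    abs_inv]
  congr 1
  exact lintegral_add_right_eq_self w _

/-- the map to the coordinates -/
theorem co_meas (e : OrthonormalBasis (Fin 3) ℝ (E 3)) (n : E 3) :
    Measurable fun ξ : E 3 => ((yc e ξ, (⟪n, ξ⟫ : ℝ)) : E 2 × ℝ) :=
  (yc_meas e).prodMk (measurable_const.inner measurable_id)

/-- integrals in the coordinates -/
theorem gen_lint (e : OrthonormalBasis (Fin 3) ℝ (E 3)) (n : E 3) (hn : (⟪n, e 2⟫ : ℝ) ≠ 0)
    (G : E 2 × ℝ → ℝ≥0∞) (hG : Measurable G) :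
    ∫⁻ ξ : E 3, G (yc e ξ, ⟪n, ξ⟫) =
      ENNReal.ofReal (1 / |(⟪n, e 2⟫ : ℝ)|) * ∫⁻ y, ∫⁻ t, G (y, t) := by
  have hFm : Measurable fun ξ : E 3 => G (yc e ξ, ⟪n, ξ⟫) := hG.comp (co_meas e n)
  rw [lint_E3 e _ hFm]
  have h1 : ∀ y : E 2, ∫⁻ s : ℝ, G (yc e (pt e y s), ⟪n, pt e y s⟫) =
      ENNReal.ofReal (1 / |(⟪n, e 2⟫ : ℝ)|) * ∫⁻ t, G (y, t) := by
    intro y
    rw [← aff_lint (⟪n, e 2⟫ : ℝ) (⟪n, pt e y 0⟫ : ℝ) hn (fun t => G (y, t))
      (hG.comp (measurable_const.prodMk measurable_id))]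
    refine lintegral_congr fun s => ?_
    rw [yc_pt]
    have h3 : pt e y s = pt e y 0 + s • e 2 := by
      unfold pt
      simp
    have h4 : (⟪n, pt e y s⟫ : ℝ) = (⟪n, e 2⟫ : ℝ) * s + (⟪n, pt e y 0⟫ : ℝ) := by
      rw [h3, inner_add_right, real_inner_smul_right]
      ring
    rw [h4]
  simp_rw [h1]
  rw [lintegral_const_mul _ (hG.lintegral_prod_right' (ν := volume))]

/-- the set with the given coordinates -/
def XX (e : OrthonormalBasis (Fin 3) ℝ (E 3)) (n : E 3) (Z : Set (E 2 × ℝ)) : Set (E 3) :=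
  {ξ | ((yc e ξ, (⟪n, ξ⟫ : ℝ)) : E 2 × ℝ) ∈ Z}

theorem XX_meas (e : OrthonormalBasis (Fin 3) ℝ (E 3)) (n : E 3) {Z : Set (E 2 × ℝ)}
    (hZ : MeasurableSet Z) : MeasurableSet (XX e n Z) := (co_meas e n) hZ

theorem XX_vol (e : OrthonormalBasis (Fin 3) ℝ (E 3)) (n : E 3) (hne : (⟪n, e 2⟫ : ℝ) ≠ 0)
    {Z : Set (E 2 × ℝ)} (hZ : MeasurableSet Z) :
    volume (XX e n Z) = ENNReal.ofReal (1 / |(⟪n, e 2⟫ : ℝ)|) *
      ∫⁻ y, volume (Prod.mk y ⁻¹' Z) := by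
  rw [← lintegral_indicator_one (XX_meas e n hZ)]
  have h1 := gen_lint e n hne (Z.indicator 1) (measurable_one.indicator hZ)
  have h2 : ∀ y : E 2, ∫⁻ t : ℝ, Z.indicator (1 : E 2 × ℝ → ℝ≥0∞) (y, t) =
      volume (Prod.mk y ⁻¹' Z) := by
    intro y
    rw [← lintegral_indicator_one (measurable_prodMk_left hZ)]
    rfl
  simp_rw [h2] at h1
  rw [← h1]
  rfl

/-- the sections form a chain -/
def Ch (Z : Set (E 2 × ℝ)) : Prop :=
  ∀ y y' : E 2, Prod.mk y ⁻¹' Z ⊆ Prod.mk y' ⁻¹' Z ∨ Prod.mk y' ⁻¹' Z ⊆ Prod.mk y ⁻¹' Z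

/-- a chain of small sections is essentially contained in a small set -/
theorem chain_cover (Z : Set (E 2 × ℝ)) (hZ : MeasurableSet Z) (hch : Ch Z)
    (A : Set (E 2)) (M : ℝ≥0∞) (hM : M ≠ ∞) (hA : ∀ y ∈ A, volume (Prod.mk y ⁻¹' Z) ≤ M) :
    ∃ B : Set ℝ, MeasurableSet B ∧ volume B ≤ M ∧
      ∀ y ∈ A, volume (Prod.mk y ⁻¹' Z \ B) = 0 := by
  rcases A.eq_empty_or_nonempty with rfl | hne
  · exact ⟨∅, MeasurableSet.empty, by simp, fun y hy => absurd hy (notMem_empty y)⟩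
  obtain ⟨u, -, hut, hu⟩ := exists_seq_tendsto_sSup
    (S := (fun y => volume (Prod.mk y ⁻¹' Z)) '' A) (hne.image _) (OrderTop.bddAbove _)
  choose y hyA hyu using hu
  have hyu' : ∀ i, volume (Prod.mk (y i) ⁻¹' Z) = u i := hyu
  have hdir : Directed (· ⊆ ·) fun i => Prod.mk (y i) ⁻¹' Z := by
    intro i j
    rcases hch (y i) (y j) with h | h
    · exact ⟨j, h, subset_rfl⟩
    · exact ⟨i, subset_rfl, h⟩
  have hBm : MeasurableSet (⋃ i, Prod.mk (y i) ⁻¹' Z) :=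
    MeasurableSet.iUnion fun i => measurable_prodMk_left hZ
  have hBle : volume (⋃ i, Prod.mk (y i) ⁻¹' Z) ≤ M := by
    rw [hdir.measure_iUnion]
    exact iSup_le fun i => hA _ (hyA i)
  refine ⟨⋃ i, Prod.mk (y i) ⁻¹' Z, hBm, hBle, ?_⟩
  intro x hx
  by_cases hex : ∃ i, Prod.mk x ⁻¹' Z ⊆ Prod.mk (y i) ⁻¹' Z
  · obtain ⟨i, hi⟩ := hex
    have h1 : Prod.mk x ⁻¹' Z \ ⋃ i, Prod.mk (y i) ⁻¹' Z = ∅ := by
      rw [diff_eq_empty]
      exact hi.trans (subset_iUnion (fun i => Prod.mk (y i) ⁻¹' Z) i)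
    rw [h1, measure_empty]
  · push Not at hex
    have h1 : ∀ i, Prod.mk (y i) ⁻¹' Z ⊆ Prod.mk x ⁻¹' Z := by
      intro i
      rcases hch x (y i) with h | h
      · exact absurd h (hex i)
      · exact h
    have h2 : (⋃ i, Prod.mk (y i) ⁻¹' Z) ⊆ Prod.mk x ⁻¹' Z := iUnion_subset h1
    rw [measure_sdiff h2 hBm.nullMeasurableSet (ne_top_of_le_ne_top hM hBle)]
    apply tsub_eq_zero_of_le
    calc volume (Prod.mk x ⁻¹' Z) ≤ sSup ((fun y => volume (Prod.mk y ⁻¹' Z)) '' A) :=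
          le_sSup ⟨x, hx, rfl⟩
      _ ≤ volume (⋃ i, Prod.mk (y i) ⁻¹' Z) := by
          refine le_of_tendsto' hut fun i => ?_
          rw [← hyu' i]
          exact measure_mono (subset_iUnion (fun i => Prod.mk (y i) ⁻¹' Z) i)

/-- the lengths of the sections -/
noncomputable def rho (Z : Set (E 2 × ℝ)) (y : E 2) : ℝ≥0∞ := volume (Prod.mk y ⁻¹' Z)

theorem rho_meas {Z : Set (E 2 × ℝ)} (hZ : MeasurableSet Z) : Measurable (rho Z) :=
  measurable_measure_prodMk_left hZ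

/-- the part of the set with sections of length about `R` -/
def ZR (Z : Set (E 2 × ℝ)) (R : ℝ≥0∞) : Set (E 2 × ℝ) :=
  Z ∩ {z | R ≤ rho Z z.1 ∧ rho Z z.1 < 2 * R}

theorem mono_ae {S T : Set (E 3)} (h : volume (S \ T) = 0) (f : E 2 → ℂ) : Ms S f ≤ Ms T f := by
  unfold Ms
  exact ENNReal.rpow_le_rpow (lintegral_mono_set' (ae_le_set.2 h)) (by norm_num)

/-- the bounds for one piece -/
theorem piece {q : ℝ} (hq : 3 < q) : ∃ C : ℝ≥0∞, C ≠ ∞ ∧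
    ∀ (e : OrthonormalBasis (Fin 3) ℝ (E 3)) (n : E 3), n 0 ^ 2 + n 1 ^ 2 + n 2 ^ 2 = 1 →
      (⟪n, e 2⟫ : ℝ) ≠ 0 → ∀ Z : Set (E 2 × ℝ), MeasurableSet Z → Ch Z →
      ∀ f : E 2 → ℂ, Ok f → ∀ R : ℝ≥0∞, R ≠ 0 → R ≠ ∞ → ∀ m : ℝ≥0∞, m ≠ ∞ →
      volume (XX e n Z) ≤ m →
      Ms (XX e n (ZR Z R)) f ^ 2 ≤ C * Nq q f ^ 2 * m ^ ((q - 1) / (2 * q)) ∧
      Ms (XX e n (ZR Z R)) f ^ 2 ≤ C * Nq q f ^ 2 * (R * m) ^ (1 / 2 : ℝ) ∧
      Ms (XX e n (ZR Z R)) f ^ 2 ≤ C * Nq q f ^ 2 * (R⁻¹ * m) ^ (2 / 3 : ℝ) := by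
  have hq0 : 0 < q := by linarith
  set m' : ℝ := (q + 1) / 2 with hm'
  have hm2 : 2 < m' := by rw [hm']; linarith
  have h2m : 2 * m' - 1 = q := by rw [hm']; ring
  have hm1 : m' - 1 = (q - 1) / 2 := by rw [hm']; ring
  set κ : ℝ := (q - 1) / (2 * q) with hκ
  have hκe : (m' - 1) / (2 * m' - 1) = κ := by
    rw [hκ, h2m, hm1]
    field_simp
  have hκ0 : 0 < κ := by
    have : 0 < q - 1 := by linarith
    positivity
  have hκ1 : κ ≤ 1 := by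
    rw [hκ, div_le_one (by positivity)]
    linarith
  obtain ⟨C1, hC1t, hC1⟩ := E1 hm2 hq (by
    rw [h2m, hm', div_lt_div_iff₀ hq0 hq0]
    nlinarith)
  rw [hκe] at hC1
  obtain ⟨C3, hC3t, hC3⟩ := E3 hq
  obtain ⟨C4, hC4t, hC4⟩ := E4 hq
  set C : ℝ≥0∞ := 2 * (C1 ^ 2 + C3 ^ 2 + C4 ^ 2) with hC
  have hCt : C ≠ ∞ := by
    rw [hC]
    exact ENNReal.mul_ne_top (by norm_num) (ENNReal.add_ne_top.2 ⟨ENNReal.add_ne_top.2
      ⟨ENNReal.pow_ne_top hC1t, ENNReal.pow_ne_top hC3t⟩, ENNReal.pow_ne_top hC4t⟩)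
  have hle1 : C1 ^ 2 * 2 ≤ C := by
    rw [hC, mul_comm, add_assoc]
    gcongr
    exact le_self_add
  have hle3 : C3 ^ 2 ≤ C := by
    rw [hC, two_mul, add_right_comm (C1 ^ 2)]
    exact le_trans (le_trans le_add_self le_self_add) le_self_add |>.trans (by
      rw [add_right_comm (C1 ^ 2)])
  have hle4 : C4 ^ 2 * 2 ≤ C := by
    rw [hC, mul_comm]
    gcongr
    exact le_add_self
  refine ⟨C, hCt, ?_⟩
  intro e n hn hne Z hZ hch f hf R hR0 hRt m hmt hm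
  set μ0 : ℝ := |(⟪n, e 2⟫ : ℝ)| with hμ0
  have hμpos : 0 < μ0 := abs_pos.2 hne
  have hμ1 : μ0 ≤ 1 := mu_le e hn
  have hX1 : 1 ≤ ENNReal.ofReal (1 / μ0) := by
    rw [← ENNReal.ofReal_one]
    apply ENNReal.ofReal_le_ofReal
    rw [le_div_iff₀ hμpos]
    linarith
  set A : Set (E 2) := {y | R ≤ rho Z y ∧ rho Z y < 2 * R} with hA
  have hAm : MeasurableSet A :=
    (measurableSet_le measurable_const (rho_meas hZ)).inter
      (measurableSet_lt (rho_meas hZ) measurable_const)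
  have h2R : 2 * R ≠ ∞ := ENNReal.mul_ne_top (by norm_num) hRt
  obtain ⟨B, hBm, hBle, hB⟩ := chain_cover Z hZ hch A (2 * R) h2R (fun y hy => hy.2.le)
  have hBt : volume B ≠ ∞ := ne_top_of_le_ne_top h2R hBle
  have hRA : ENNReal.ofReal (1 / μ0) * (R * volume A) ≤ m := by
    refine le_trans ?_ hm
    rw [XX_vol e n hne hZ]
    gcongr
    calc R * volume A = ∫⁻ y in A, R := by rw [setLIntegral_const]
      _ ≤ ∫⁻ y in A, rho Z y := setLIntegral_mono' hAm fun y hy => hy.1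
      _ ≤ ∫⁻ y, rho Z y := setLIntegral_le_lintegral _ _
      _ = _ := rfl
  have hRA' : R * volume A ≤ m := le_trans (le_mul_of_one_le_left zero_le hX1) hRA
  have hvA : volume A ≤ R⁻¹ * m := by
    calc volume A = R⁻¹ * (R * volume A) := by
          rw [← mul_assoc, ENNReal.inv_mul_cancel hR0 hRt, one_mul]
      _ ≤ R⁻¹ * m := by gcongr
  have hAt : volume A ≠ ∞ := ne_top_of_le_ne_top
    (ENNReal.mul_ne_top (ENNReal.inv_ne_top.2 hR0) hmt) hvA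
  set S := SS e n A B with hS
  have hvS : volume S ≤ 2 * m := by
    rw [hS, SS_vol e n hne hAm hBm]
    calc ENNReal.ofReal (1 / μ0) * (volume A * volume B)
        ≤ ENNReal.ofReal (1 / μ0) * (volume A * (2 * R)) := by gcongr
      _ = 2 * (ENNReal.ofReal (1 / μ0) * (R * volume A)) := by ring
      _ ≤ 2 * m := by gcongr
  have h2m' : 2 * m ≠ ∞ := ENNReal.mul_ne_top (by norm_num) hmt
  have hSt : volume S ≠ ∞ := ne_top_of_le_ne_top h2m' hvS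
  set N := Nq q f with hN
  have hsub : Ms (XX e n (ZR Z R)) f ≤ Ms S f := by
    apply mono_ae
    set Z0 : Set (E 2 × ℝ) := Z ∩ {z | z.1 ∈ A ∧ z.2 ∉ B} with hZ0
    have hZ0m : MeasurableSet Z0 := hZ.inter ((measurable_fst hAm).inter (measurable_snd hBm.compl))
    have h1 : XX e n (ZR Z R) \ S ⊆ XX e n Z0 := by
      rintro ξ ⟨⟨h2, h3⟩, h4⟩
      refine ⟨h2, h3, fun h5 => h4 ⟨h3, h5⟩⟩
    refine measure_mono_null h1 ?_
    rw [XX_vol e n hne hZ0m]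
    have h2 : ∀ y : E 2, volume (Prod.mk y ⁻¹' Z0) = 0 := by
      intro y
      by_cases hy : y ∈ A
      · have h3 : Prod.mk y ⁻¹' Z0 ⊆ Prod.mk y ⁻¹' Z \ B := fun t ht => ⟨ht.1, ht.2.2⟩
        exact measure_mono_null h3 (hB y hy)
      · have : Prod.mk y ⁻¹' Z0 = ∅ := by
          ext t
          simp only [mem_preimage, mem_empty_iff_false, iff_false]
          exact fun ht => hy ht.2.1
        rw [this, measure_empty]
    simp_rw [h2]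
    simp
  have hsub2 : Ms (XX e n (ZR Z R)) f ^ 2 ≤ Ms S f ^ 2 := by gcongr
  refine ⟨hsub2.trans ?_, hsub2.trans ?_, hsub2.trans ?_⟩
  · by_cases hz : volume S = 0
    · have : Ms S f = 0 := by
        unfold Ms
        rw [Measure.restrict_eq_zero.2 hz, lintegral_zero_measure, ENNReal.zero_rpow_of_pos (by norm_num)]
      rw [this]
      simp
    · have hA0 : volume A ≠ 0 := by
        intro h
        apply hz
        rw [hS, SS_vol e n hne hAm hBm, h]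
        simp
      have hB0 : volume B ≠ 0 := by
        intro h
        apply hz
        rw [hS, SS_vol e n hne hAm hBm, h]
        simp
      have h1 := hC1 e n hn hne A B hAm hBm hA0 hAt hB0 hBt f hf
      have h22 : (2 : ℝ≥0∞) ^ κ ≤ 2 := by
        calc (2 : ℝ≥0∞) ^ κ ≤ 2 ^ (1 : ℝ) :=
              ENNReal.rpow_le_rpow_of_exponent_le (by norm_num) hκ1
          _ = 2 := ENNReal.rpow_one 2
      calc Ms S f ^ 2 ≤ (C1 * (volume S ^ (κ / 2) * N)) ^ 2 := by gcongr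
        _ = C1 ^ 2 * N ^ 2 * (volume S ^ (κ / 2)) ^ 2 := by ring
        _ = C1 ^ 2 * N ^ 2 * volume S ^ κ := by rw [rsq _ _ κ (by ring)]
        _ ≤ C1 ^ 2 * N ^ 2 * (2 * m) ^ κ := by gcongr
        _ = C1 ^ 2 * N ^ 2 * (2 ^ κ * m ^ κ) := by rw [ENNReal.mul_rpow_of_nonneg _ _ hκ0.le]
        _ ≤ C1 ^ 2 * N ^ 2 * (2 * m ^ κ) := by gcongr
        _ = (C1 ^ 2 * 2) * N ^ 2 * m ^ κ := by ring
        _ ≤ C * N ^ 2 * m ^ κ := by gcongr
  · have h1 := hC4 e n hn hne A B hAm hBm hSt f hf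
    calc Ms S f ^ 2 ≤ (C4 * ((volume B * volume S) ^ (1 / 4 : ℝ) * N)) ^ 2 := by gcongr
      _ = C4 ^ 2 * N ^ 2 * ((volume B * volume S) ^ (1 / 4 : ℝ)) ^ 2 := by ring
      _ = C4 ^ 2 * N ^ 2 * (volume B * volume S) ^ (1 / 2 : ℝ) := by
          rw [rsq _ _ (1 / 2) (by norm_num)]
      _ ≤ C4 ^ 2 * N ^ 2 * ((2 * R) * (2 * m)) ^ (1 / 2 : ℝ) := by gcongr
      _ = C4 ^ 2 * N ^ 2 * ((2 * 2) * (R * m)) ^ (1 / 2 : ℝ) := by
          rw [mul_mul_mul_comm]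
      _ = C4 ^ 2 * N ^ 2 * (2 * (R * m) ^ (1 / 2 : ℝ)) := by
          rw [ENNReal.mul_rpow_of_nonneg _ _ (by norm_num : (0 : ℝ) ≤ 1 / 2),
            ENNReal.mul_rpow_of_nonneg 2 2 (by norm_num : (0 : ℝ) ≤ 1 / 2),
            ← ENNReal.rpow_add_of_nonneg _ _ (by norm_num) (by norm_num)]
          norm_num
      _ = (C4 ^ 2 * 2) * N ^ 2 * (R * m) ^ (1 / 2 : ℝ) := by ring
      _ ≤ _ := by gcongr
  · have h1 := hC3 e n hn A B hAm hBm f hf
    calc Ms S f ^ 2 ≤ (C3 * (volume A ^ (1 / 3 : ℝ) * N)) ^ 2 := by gcongr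
      _ = C3 ^ 2 * N ^ 2 * (volume A ^ (1 / 3 : ℝ)) ^ 2 := by ring
      _ = C3 ^ 2 * N ^ 2 * volume A ^ (2 / 3 : ℝ) := by rw [rsq _ _ (2 / 3) (by norm_num)]
      _ ≤ C * N ^ 2 * (R⁻¹ * m) ^ (2 / 3 : ℝ) := by gcongr

end Pool.Agent.K4H46.OW
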