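import Mathlib
import Pool.Agent.K4H46.OW.NE

set_option autoImplicit false

/-! Weights with nested sections. -/

namespace Pool.Agent.K4H46.OW

open MeasureTheory Set Complex
open scoped ENNReal NNReal RealInnerProductSpace
open Pool.Agent.K4H46.RX Pool.Agent.K4H46.CW

/-- one layer cake -/
theorem layer1 {α : Type*} [MeasurableSpace α] (μ : Measure α) [SFinite μ] (U G : α → ℝ≥0∞)
    (hU : Measurable U) (hG : Measurable G) :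
    ∫⁻ ξ, U ξ * G ξ ∂μ = ∫⁻ s in Ioi (0 : ℝ), ∫⁻ ξ in {ξ | ENNReal.ofReal s < U ξ}, G ξ ∂μ := by
  have hUm : Measurable fun q : ℝ × α => if ENNReal.ofReal q.1 < U q.2 then (1 : ℝ≥0∞) else 0 :=
    Measurable.ite (measurableSet_lt measurable_fst.ennreal_ofReal (hU.comp measurable_snd))
      measurable_const measurable_const
  calc ∫⁻ ξ, U ξ * G ξ ∂μ
      = ∫⁻ ξ, (∫⁻ s in Ioi (0 : ℝ), (if ENNReal.ofReal s < U ξ then 1 else 0) * G ξ) ∂μ := by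
        refine lintegral_congr fun ξ => ?_
        rw [lintegral_mul_const, ← Pool.Agent.R412.RT.layer]
        exact hUm.comp (measurable_id.prodMk measurable_const)
    _ = ∫⁻ s in Ioi (0 : ℝ), (∫⁻ ξ, (if ENNReal.ofReal s < U ξ then 1 else 0) * G ξ ∂μ) := by
        refine lintegral_lintegral_swap ?_
        exact ((hUm.comp measurable_swap).mul (hG.comp measurable_fst)).aemeasurable
    _ = _ := by
        refine lintegral_congr fun s => ?_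
        have hms : MeasurableSet {ξ | ENNReal.ofReal s < U ξ} := measurableSet_lt measurable_const hU
        rw [← lintegral_indicator hms]
        refine lintegral_congr fun ξ => ?_
        by_cases h1 : ENNReal.ofReal s < U ξ <;> simp [h1]

/-- dyadic scales -/
theorem scales {x : ℝ≥0∞} (h0 : x ≠ 0) (ht : x ≠ ∞) :
    (∃ j : ℕ, 2 ^ j ≤ x ∧ x < 2 * 2 ^ j) ∨ ∃ j : ℕ, (2⁻¹ : ℝ≥0∞) ^ j ≤ x ∧ x < 2 * 2⁻¹ ^ j := by
  obtain ⟨k, hk1, hk2⟩ := ENNReal.exists_mem_Ico_zpow h0 ht (by norm_num : (1 : ℝ≥0∞) < 2)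
    (by norm_num)
  rw [ENNReal.zpow_add (by norm_num) (by norm_num), zpow_one, mul_comm] at hk2
  rcases Int.eq_nat_or_neg k with ⟨j, rfl | rfl⟩
  · left
    refine ⟨j, ?_, ?_⟩
    · simpa using hk1
    · simpa using hk2
  · right
    refine ⟨j, ?_, ?_⟩
    · rw [← ENNReal.inv_pow]
      simpa [ENNReal.zpow_neg] using hk1
    · rw [← ENNReal.inv_pow]
      simpa [ENNReal.zpow_neg] using hk2

/-- the covering by dyadic pieces -/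
theorem cover (e : OrthonormalBasis (Fin 3) ℝ (E 3)) (n : E 3) (hne : (⟪n, e 2⟫ : ℝ) ≠ 0)
    (Z : Set (E 2 × ℝ)) (hZ : MeasurableSet Z) (hZt : volume (XX e n Z) ≠ ∞) (f : E 2 → ℂ) :
    Ms (XX e n Z) f ^ 2 ≤ (∑' j : ℕ, Ms (XX e n (ZR Z (2 ^ j))) f ^ 2) +
      ∑' j : ℕ, Ms (XX e n (ZR Z (2⁻¹ ^ j))) f ^ 2 := by
  set T : Set (E 3) := (⋃ j : ℕ, XX e n (ZR Z (2 ^ j))) ∪ ⋃ j : ℕ, XX e n (ZR Z (2⁻¹ ^ j)) with hT
  have hμpos : 0 < |(⟪n, e 2⟫ : ℝ)| := abs_pos.2 hne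
  have hX0 : ENNReal.ofReal (1 / |(⟪n, e 2⟫ : ℝ)|) ≠ 0 := by
    simp only [ne_eq, ENNReal.ofReal_eq_zero, not_le]
    positivity
  have hfin : ∫⁻ y, rho Z y ≠ ∞ := by
    intro h
    apply hZt
    rw [XX_vol e n hne hZ]
    have h' : ∫⁻ y, volume (Prod.mk y ⁻¹' Z) = ∞ := h
    rw [h', ENNReal.mul_top hX0]
  have hae : ∀ᵐ y, rho Z y < ∞ := ae_lt_top (rho_meas hZ) hfin
  have hnull : volume (XX e n Z \ T) = 0 := by
    set Z0 : Set (E 2 × ℝ) := Z ∩ {z | rho Z z.1 = 0 ∨ rho Z z.1 = ∞} with hZ0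
    have hZ0m : MeasurableSet Z0 := by
      refine hZ.inter (MeasurableSet.union ?_ ?_)
      · exact ((rho_meas hZ).comp measurable_fst) (measurableSet_singleton 0)
      · exact ((rho_meas hZ).comp measurable_fst) (measurableSet_singleton ∞)
    have h1 : XX e n Z \ T ⊆ XX e n Z0 := by
      rintro ξ ⟨h2, h3⟩
      refine ⟨h2, ?_⟩
      by_contra h4
      apply h3
      have h5 : ¬ (rho Z (yc e ξ) = 0 ∨ rho Z (yc e ξ) = ∞) := h4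
      push Not at h5
      rcases scales h5.1 h5.2 with ⟨j, hj1, hj2⟩ | ⟨j, hj1, hj2⟩
      · exact Or.inl (mem_iUnion.2 ⟨j, h2, hj1, hj2⟩)
      · exact Or.inr (mem_iUnion.2 ⟨j, h2, hj1, hj2⟩)
    refine measure_mono_null h1 ?_
    rw [XX_vol e n hne hZ0m]
    have h2 : ∫⁻ y, volume (Prod.mk y ⁻¹' Z0) = ∫⁻ y : E 2, 0 := by
      refine lintegral_congr_ae ?_
      filter_upwards [hae] with y hy
      by_cases h0 : rho Z y = 0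
      · exact measure_mono_null (fun t (ht : (y, t) ∈ Z0) => ht.1) h0
      · have : Prod.mk y ⁻¹' Z0 = ∅ := by
          ext t
          simp only [mem_preimage, mem_empty_iff_false, iff_false]
          rintro ⟨-, ht | ht⟩
          · exact h0 ht
          · exact hy.ne ht
        rw [this, measure_empty]
    rw [h2]
    simp
  have h1 := mono_ae hnull f
  calc Ms (XX e n Z) f ^ 2 ≤ Ms T f ^ 2 := by gcongr
    _ = ∫⁻ ξ in T, ‖EE f ξ‖ₑ ^ 2 := Ms_sq _ _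
    _ ≤ (∫⁻ ξ in ⋃ j : ℕ, XX e n (ZR Z (2 ^ j)), ‖EE f ξ‖ₑ ^ 2) +
        ∫⁻ ξ in ⋃ j : ℕ, XX e n (ZR Z (2⁻¹ ^ j)), ‖EE f ξ‖ₑ ^ 2 := lintegral_union_le _ _ _
    _ ≤ (∑' j : ℕ, ∫⁻ ξ in XX e n (ZR Z (2 ^ j)), ‖EE f ξ‖ₑ ^ 2) +
        ∑' j : ℕ, ∫⁻ ξ in XX e n (ZR Z (2⁻¹ ^ j)), ‖EE f ξ‖ₑ ^ 2 := by
        gcongr
        · exact lintegral_iUnion_le _ _
        · exact lintegral_iUnion_le _ _
    _ = _ := by simp_rw [Ms_sq]

/-- the estimate for sets with nested sections -/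
theorem setest {q : ℝ} (hq : 3 < q) : ∃ (C : ℝ≥0∞) (κ1 κ2 : ℝ), C ≠ ∞ ∧
    q / (q - 2) * κ1 < 1 ∧ q / (q - 2) * κ2 < 1 ∧ 0 ≤ κ1 ∧ 0 ≤ κ2 ∧
    ∀ (e : OrthonormalBasis (Fin 3) ℝ (E 3)) (n : E 3), n 0 ^ 2 + n 1 ^ 2 + n 2 ^ 2 = 1 →
      (⟪n, e 2⟫ : ℝ) ≠ 0 → ∀ Z : Set (E 2 × ℝ), MeasurableSet Z → Ch Z →
      ∀ f : E 2 → ℂ, Ok f → ∀ m : ℝ≥0∞, m ≠ ∞ → volume (XX e n Z) ≤ m →
      Ms (XX e n Z) f ^ 2 ≤ C * Nq q f ^ 2 * (m ^ κ1 + m ^ κ2) := by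
  have hq2 : 0 < q - 2 := by linarith
  have hq0 : 0 < q := by linarith
  obtain ⟨C, hCt, hC⟩ := piece hq
  set κ : ℝ := (q - 1) / (2 * q) with hκ
  have hκ0 : 0 < κ := by
    have : 0 < q - 1 := by linarith
    positivity
  have hκ2 : κ < 1 / 2 := by
    rw [hκ, div_lt_div_iff₀ (by positivity) (by norm_num)]
    linarith
  set θ : ℝ := (q - 3) / (2 * q) with hθ
  have hθ0 : 0 < θ := by
    have : 0 < q - 3 := by linarith
    positivity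
  have hθ1 : θ ≤ 1 := by
    rw [hθ, div_le_one (by positivity)]
    linarith
  have hκθ : κ + θ = (q - 2) / q := by
    rw [hκ, hθ]
    field_simp
    ring
  have hr : q / (q - 2) * (κ + θ) = 1 := by
    rw [hκθ]
    field_simp
  have hrpos : 0 < q / (q - 2) := by positivity
  set κ1 : ℝ := κ * (1 - θ) + 2 / 3 * θ with hκ1
  set κ2 : ℝ := κ * (1 - θ) + 1 / 2 * θ with hκ2'
  have h1θ : 0 ≤ 1 - θ := by linarith
  have hκ1lt : κ1 < κ + θ := by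
    rw [hκ1]
    nlinarith
  have hκ2lt : κ2 < κ + θ := by
    rw [hκ2']
    nlinarith
  have hκ10 : 0 ≤ κ1 := by
    rw [hκ1]
    positivity
  have hκ20 : 0 ≤ κ2 := by
    rw [hκ2']
    positivity
  set a1 : ℝ≥0∞ := 2⁻¹ ^ (2 / 3 * θ) with ha1
  set a2 : ℝ≥0∞ := 2⁻¹ ^ (1 / 2 * θ) with ha2
  have hhalf : (2⁻¹ : ℝ≥0∞) < 1 := by norm_num
  have ha1lt : a1 < 1 := ENNReal.rpow_lt_one hhalf (by positivity)
  have ha2lt : a2 < 1 := ENNReal.rpow_lt_one hhalf (by positivity)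
  have ht1 : (1 - a1)⁻¹ ≠ ∞ := ENNReal.inv_ne_top.2 (tsub_pos_of_lt ha1lt).ne'
  have ht2 : (1 - a2)⁻¹ ≠ ∞ := ENNReal.inv_ne_top.2 (tsub_pos_of_lt ha2lt).ne'
  refine ⟨C * ((1 - a1)⁻¹ + (1 - a2)⁻¹), κ1, κ2, ENNReal.mul_ne_top hCt
    (ENNReal.add_ne_top.2 ⟨ht1, ht2⟩), ?_, ?_, hκ10, hκ20, ?_⟩
  · rw [← hr]; gcongr
  · rw [← hr]; gcongr
  intro e n hn hne Z hZ hch f hf m hmt hm
  set N := Nq q f with hN
  have hfac : ∀ P R : ℝ≥0∞, (C * N ^ 2 * P) ^ (1 - θ) * (C * N ^ 2 * R) ^ θ =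
      C * N ^ 2 * (P ^ (1 - θ) * R ^ θ) := by
    intro P R
    rw [ENNReal.mul_rpow_of_nonneg _ _ h1θ, ENNReal.mul_rpow_of_nonneg _ _ hθ0.le]
    calc (C * N ^ 2) ^ (1 - θ) * P ^ (1 - θ) * ((C * N ^ 2) ^ θ * R ^ θ)
        = ((C * N ^ 2) ^ (1 - θ) * (C * N ^ 2) ^ θ) * (P ^ (1 - θ) * R ^ θ) := by ring
      _ = _ := by
          rw [← ENNReal.rpow_add_of_nonneg _ _ h1θ hθ0.le]
          simp
  have hpc : ∀ (R b : ℝ≥0∞) (c : ℝ), 0 < c → (m ^ κ) ^ (1 - θ) * ((b * m) ^ c) ^ θ =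
      m ^ (κ * (1 - θ) + c * θ) * b ^ (c * θ) := by
    intro R b c hc
    rw [← ENNReal.rpow_mul, ← ENNReal.rpow_mul, ENNReal.mul_rpow_of_nonneg _ _ (by positivity),
      ENNReal.rpow_add_of_nonneg _ _ (by positivity) (by positivity)]
    ring
  have hp1 : ∀ j : ℕ, Ms (XX e n (ZR Z (2 ^ j))) f ^ 2 ≤ C * N ^ 2 * m ^ κ1 * a1 ^ j := by
    intro j
    obtain ⟨h1, -, h3⟩ := hC e n hn hne Z hZ hch f hf (2 ^ j) (pow_ne_zero _ (by norm_num))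
      (ENNReal.pow_ne_top (by norm_num)) m hmt hm
    have h4 := geo2 hθ0.le hθ1 h1 h3
    rw [hfac, hpc 0 _ _ (by norm_num)] at h4
    refine h4.trans (le_of_eq ?_)
    have h5 : ((2 : ℝ≥0∞) ^ j)⁻¹ ^ (2 / 3 * θ) = a1 ^ j := by
      rw [ha1, ENNReal.inv_pow, ← ENNReal.rpow_natCast, ← ENNReal.rpow_natCast,
        ← ENNReal.rpow_mul, ← ENNReal.rpow_mul, mul_comm]
    rw [h5, mul_assoc (C * N ^ 2)]
  have hp2 : ∀ j : ℕ, Ms (XX e n (ZR Z (2⁻¹ ^ j))) f ^ 2 ≤ C * N ^ 2 * m ^ κ2 * a2 ^ j := by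
    intro j
    obtain ⟨h1, h2, -⟩ := hC e n hn hne Z hZ hch f hf (2⁻¹ ^ j) (pow_ne_zero _ (by norm_num))
      (ENNReal.pow_ne_top (by norm_num)) m hmt hm
    have h4 := geo2 hθ0.le hθ1 h1 h2
    rw [hfac, hpc 0 _ _ (by norm_num)] at h4
    refine h4.trans (le_of_eq ?_)
    have h5 : ((2⁻¹ : ℝ≥0∞) ^ j) ^ (1 / 2 * θ) = a2 ^ j := by
      rw [ha2, ← ENNReal.rpow_natCast, ← ENNReal.rpow_natCast,
        ← ENNReal.rpow_mul, ← ENNReal.rpow_mul, mul_comm]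
    rw [h5, mul_assoc (C * N ^ 2)]
  calc Ms (XX e n Z) f ^ 2
      ≤ (∑' j : ℕ, Ms (XX e n (ZR Z (2 ^ j))) f ^ 2) +
        ∑' j : ℕ, Ms (XX e n (ZR Z (2⁻¹ ^ j))) f ^ 2 :=
        cover e n hne Z hZ (ne_top_of_le_ne_top hmt hm) f
    _ ≤ (∑' j : ℕ, C * N ^ 2 * m ^ κ1 * a1 ^ j) + ∑' j : ℕ, C * N ^ 2 * m ^ κ2 * a2 ^ j := by
        gcongr with j j
        · exact hp1 j
        · exact hp2 j
    _ = C * N ^ 2 * m ^ κ1 * (1 - a1)⁻¹ + C * N ^ 2 * m ^ κ2 * (1 - a2)⁻¹ := by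
        rw [ENNReal.tsum_mul_left, ENNReal.tsum_mul_left, ENNReal.tsum_geometric,
          ENNReal.tsum_geometric]
    _ ≤ C * N ^ 2 * m ^ κ1 * ((1 - a1)⁻¹ + (1 - a2)⁻¹) +
        C * N ^ 2 * m ^ κ2 * ((1 - a1)⁻¹ + (1 - a2)⁻¹) := by
        gcongr
        · exact le_self_add
        · exact le_add_self
    _ = _ := by ring

/-- the four-point condition -/
def Fp (w : E 2 × ℝ → ℝ≥0∞) : Prop :=
  ∀ (y y' : E 2) (s s' : ℝ), min (w (y, s)) (w (y', s')) ≤ max (w (y, s')) (w (y', s))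

theorem Fp.ch {w : E 2 × ℝ → ℝ≥0∞} (hw : Fp w) (a : ℝ≥0∞) : Ch {z | a < w z} := by
  intro y y'
  by_contra h
  push Not at h
  obtain ⟨h1, h2⟩ := h
  rw [not_subset] at h1 h2
  obtain ⟨s, hs1, hs2⟩ := h1
  obtain ⟨s', hs1', hs2'⟩ := h2
  have h3 := hw y y' s s'
  have h4 : a < min (w (y, s)) (w (y', s')) := lt_min hs1 hs1'
  have h5 : max (w (y, s')) (w (y', s)) ≤ a := max_le (not_lt.1 hs2') (not_lt.1 hs2)
  exact absurd (h4.trans_le (h3.trans h5)) (lt_irrefl _)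

/-- the normalised weighted estimate -/
theorem WTn {q : ℝ} (hq : 3 < q) : ∃ C : ℝ≥0∞, C ≠ ∞ ∧
    ∀ (e : OrthonormalBasis (Fin 3) ℝ (E 3)) (n : E 3), n 0 ^ 2 + n 1 ^ 2 + n 2 ^ 2 = 1 →
      (⟪n, e 2⟫ : ℝ) ≠ 0 → ∀ w : E 2 × ℝ → ℝ≥0∞, Measurable w → Fp w →
      ∫⁻ ξ : E 3, w (yc e ξ, ⟪n, ξ⟫) ^ (q / (q - 2)) ≤ 1 → ∀ f : E 2 → ℂ, Ok f →
      ∫⁻ ξ, w (yc e ξ, ⟪n, ξ⟫) * ‖EE f ξ‖ₑ ^ 2 ≤ C * Nq q f ^ 2 := by
  have hq2 : 0 < q - 2 := by linarith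
  have hq0 : 0 < q := by linarith
  obtain ⟨C, κ1, κ2, hCt, hx1, hx2, hκ1, hκ2, hC⟩ := setest hq
  set r : ℝ := q / (q - 2) with hr
  have hr1 : 1 < r := by rw [hr, lt_div_iff₀ hq2]; linarith
  have hr0 : 0 < r := by linarith
  set C' : ℝ≥0∞ := C + 8 ^ 2 with hC'
  set J : ℝ≥0∞ := (∫⁻ s, lo (r * κ1) s) + (∫⁻ s, lo (r * κ2) s) + (∫⁻ s, hi r s) with hJ
  have hJt : J ≠ ∞ := ENNReal.add_ne_top.2 ⟨ENNReal.add_ne_top.2 ⟨lo_fin hx1, lo_fin hx2⟩,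
    hi_fin hr1⟩
  refine ⟨C' * J, ENNReal.mul_ne_top (ENNReal.add_ne_top.2 ⟨hCt, by norm_num⟩) hJt, ?_⟩
  intro e n hn hne w hw hwF hI f hf
  have hWm : Measurable fun ξ : E 3 => w (yc e ξ, ⟪n, ξ⟫) := hw.comp (co_meas e n)
  have hGm : Measurable fun ξ : E 3 => ‖EE f ξ‖ₑ ^ 2 := (EE_meas hf.meas).enorm.pow_const 2
  rw [layer1 volume _ _ hWm hGm]
  set N := Nq q f with hN
  have hpt : ∀ s ∈ Ioi (0 : ℝ),
      ∫⁻ ξ in {ξ : E 3 | ENNReal.ofReal s < w (yc e ξ, ⟪n, ξ⟫)}, ‖EE f ξ‖ₑ ^ 2 ≤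
        C' * N ^ 2 * (lo (r * κ1) s + lo (r * κ2) s + hi r s) := by
    intro s hs
    have hs0 : 0 < s := hs
    have hvol : volume {ξ : E 3 | ENNReal.ofReal s < w (yc e ξ, ⟪n, ξ⟫)} ≤
        ENNReal.ofReal s ^ (-r) := by
      have := cheb volume hWm hr0 hI hs0
      rwa [one_mul] at this
    have hσ0 : ENNReal.ofReal s ≠ 0 := by
      simp only [ne_eq, ENNReal.ofReal_eq_zero, not_le]; exact hs0
    have hmt : ENNReal.ofReal s ^ (-r) ≠ ∞ := ENNReal.rpow_ne_top_of_ne_zero hσ0 ENNReal.ofReal_ne_top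
    have hX : {ξ : E 3 | ENNReal.ofReal s < w (yc e ξ, ⟪n, ξ⟫)} =
        XX e n {z | ENNReal.ofReal s < w z} := rfl
    rw [hX] at hvol ⊢
    rw [← Ms_sq]
    rcases le_or_gt s 1 with hs1 | hs1
    · have hsI : s ∈ Ioc (0 : ℝ) 1 := ⟨hs0, hs1⟩
      have hlos : ∀ x : ℝ, lo x s = ENNReal.ofReal s ^ (-x) := fun x => indicator_of_mem hsI _
      refine (hC e n hn hne _ (measurableSet_lt measurable_const hw) (hwF.ch _) f hf _ hmt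
        hvol).trans ?_
      rw [← ENNReal.rpow_mul, ← ENNReal.rpow_mul, neg_mul, neg_mul, ← hlos, ← hlos]
      exact mul_le_mul' (mul_le_mul' le_self_add le_rfl) le_self_add
    · have hhis : hi r s = ENNReal.ofReal s ^ (-r) := indicator_of_mem (show s ∈ Ioi 1 from hs1) _
      have h1 := E2' hq (XX e n {z | ENNReal.ofReal s < w z}) f hf
      calc Ms (XX e n {z | ENNReal.ofReal s < w z}) f ^ 2
          ≤ (8 * (volume (XX e n {z | ENNReal.ofReal s < w z}) ^ (1 / 2 : ℝ) * N)) ^ 2 := by gcongr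
        _ = 8 ^ 2 * N ^ 2 * (volume (XX e n {z | ENNReal.ofReal s < w z}) ^ (1 / 2 : ℝ)) ^ 2 := by
            ring
        _ = 8 ^ 2 * N ^ 2 * volume (XX e n {z | ENNReal.ofReal s < w z}) := by
            rw [rsq _ _ 1 (by norm_num), ENNReal.rpow_one]
        _ ≤ C' * N ^ 2 * hi r s := by
            rw [hhis]
            gcongr
            rw [hC']; exact le_add_self
        _ ≤ _ := by
            gcongr
            exact le_add_self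
  calc ∫⁻ s in Ioi (0 : ℝ), ∫⁻ ξ in {ξ : E 3 | ENNReal.ofReal s < w (yc e ξ, ⟪n, ξ⟫)},
        ‖EE f ξ‖ₑ ^ 2
      ≤ ∫⁻ s in Ioi (0 : ℝ), C' * N ^ 2 * (lo (r * κ1) s + lo (r * κ2) s + hi r s) :=
        setLIntegral_mono' measurableSet_Ioi hpt
    _ ≤ ∫⁻ s : ℝ, C' * N ^ 2 * (lo (r * κ1) s + lo (r * κ2) s + hi r s) :=
        setLIntegral_le_lintegral _ _
    _ = C' * J * N ^ 2 := by
        have hm : Measurable fun s : ℝ => lo (r * κ1) s + lo (r * κ2) s + hi r s :=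
          ((lo_meas _).add (lo_meas _)).add (hi_meas r)
        rw [lintegral_const_mul _ hm, lintegral_add_right _ (hi_meas r),
          lintegral_add_right _ (lo_meas _), hJ]
        ring

/-- **the weighted estimate for nested weights** -/
theorem WTd {q : ℝ} (hq : 3 < q) : ∃ C : ℝ≥0∞, C ≠ ∞ ∧
    ∀ (e : OrthonormalBasis (Fin 3) ℝ (E 3)) (n : E 3), n 0 ^ 2 + n 1 ^ 2 + n 2 ^ 2 = 1 →
      (⟪n, e 2⟫ : ℝ) ≠ 0 → ∀ w : E 2 × ℝ → ℝ≥0∞, Measurable w → Fp w →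
      ∀ f : E 2 → ℂ, Ok f →
      ∫⁻ ξ, w (yc e ξ, ⟪n, ξ⟫) * ‖EE f ξ‖ₑ ^ 2 ≤
        C * (∫⁻ ξ : E 3, w (yc e ξ, ⟪n, ξ⟫) ^ (q / (q - 2))) ^ ((q - 2) / q) * Nq q f ^ 2 := by
  have hq2 : 0 < q - 2 := by linarith
  have hq0 : 0 < q := by linarith
  obtain ⟨C, hCt, hC⟩ := WTn hq
  set r : ℝ := q / (q - 2) with hr
  have hr0 : 0 < r := by positivity
  have hrinv : (q - 2) / q = 1 / r := by rw [hr, one_div_div]
  refine ⟨C + 1, ENNReal.add_ne_top.2 ⟨hCt, by norm_num⟩, ?_⟩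
  intro e n hn hne w hw hwF f hf
  rw [hrinv]
  have hWm : Measurable fun ξ : E 3 => w (yc e ξ, ⟪n, ξ⟫) := hw.comp (co_meas e n)
  set I : ℝ≥0∞ := ∫⁻ ξ : E 3, w (yc e ξ, ⟪n, ξ⟫) ^ r with hI
  by_cases hI0 : I = 0
  · have h1 : (fun ξ : E 3 => w (yc e ξ, ⟪n, ξ⟫) ^ r) =ᵐ[volume] 0 :=
      (lintegral_eq_zero_iff (hWm.pow_const r)).1 hI0
    have hm : Measurable fun ξ : E 3 => w (yc e ξ, ⟪n, ξ⟫) * ‖EE f ξ‖ₑ ^ 2 :=
      hWm.mul ((EE_meas hf.meas).enorm.pow_const 2)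
    have h2 : ∫⁻ ξ : E 3, w (yc e ξ, ⟪n, ξ⟫) * ‖EE f ξ‖ₑ ^ 2 = 0 := by
      rw [lintegral_eq_zero_iff hm]
      filter_upwards [h1] with ξ hξ
      simp only [Pi.zero_apply] at hξ ⊢
      rw [(ENNReal.rpow_eq_zero_iff_of_pos hr0).1 hξ, zero_mul]
    rw [h2]
    exact zero_le
  by_cases hN0 : Nq q f = 0
  · have h1 : f =ᵐ[volume] 0 := by
      unfold Nq at hN0
      rw [ENNReal.rpow_eq_zero_iff_of_pos (by positivity),
        lintegral_eq_zero_iff (hf.meas.enorm.pow_const q)] at hN0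
      filter_upwards [hN0] with x hx
      simp only [Pi.zero_apply] at hx
      have h3 := (ENNReal.rpow_eq_zero_iff_of_pos hq0).1 hx
      simpa using h3
    have h2 : ∀ ξ, EE f ξ = 0 := by
      intro ξ
      rw [EE_congr h1]
      unfold EE
      simp
    simp_rw [h2]
    simp
  by_cases hIt : I = ∞
  · rw [hIt, ENNReal.top_rpow_of_pos (by positivity), ENNReal.mul_top, ENNReal.top_mul]
    · exact le_top
    · exact pow_ne_zero 2 hN0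
    · exact (lt_of_lt_of_le one_pos le_add_self).ne'
  set c : ℝ≥0∞ := I ^ (1 / r) with hc
  have hc0 : c ≠ 0 := (ENNReal.rpow_pos (pos_iff_ne_zero.2 hI0) hIt).ne'
  have hct : c ≠ ∞ := ENNReal.rpow_ne_top_of_ne_zero hI0 hIt
  have hpr : c ^ r = I := by
    rw [hc, ← ENNReal.rpow_mul]
    have : 1 / r * r = 1 := by field_simp
    rw [this, ENNReal.rpow_one]
  have hI' : ∫⁻ ξ : E 3, (c⁻¹ * w (yc e ξ, ⟪n, ξ⟫)) ^ r ≤ 1 := by
    simp_rw [ENNReal.mul_rpow_of_nonneg _ _ hr0.le]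
    rw [lintegral_const_mul _ (hWm.pow_const r), ENNReal.inv_rpow, hpr, ← hI,
      ENNReal.inv_mul_cancel hI0 hIt]
  have hF' : Fp fun z => c⁻¹ * w z := by
    intro y y' s s'
    have hmono : Monotone fun x : ℝ≥0∞ => c⁻¹ * x := fun a b h => by
      show c⁻¹ * a ≤ c⁻¹ * b
      gcongr
    have h1 := hmono (hwF y y' s s')
    simp only at h1
    rw [hmono.map_min, hmono.map_max] at h1
    exact h1
  have hmain := hC e n hn hne (fun z => c⁻¹ * w z) (hw.const_mul _) hF' hI' f hf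
  have hscale : ∫⁻ ξ : E 3, w (yc e ξ, ⟪n, ξ⟫) * ‖EE f ξ‖ₑ ^ 2 =
      c * ∫⁻ ξ : E 3, (c⁻¹ * w (yc e ξ, ⟪n, ξ⟫)) * ‖EE f ξ‖ₑ ^ 2 := by
    have hm : Measurable fun ξ : E 3 => (c⁻¹ * w (yc e ξ, ⟪n, ξ⟫)) * ‖EE f ξ‖ₑ ^ 2 :=
      (hWm.const_mul _).mul ((EE_meas hf.meas).enorm.pow_const 2)
    rw [← lintegral_const_mul _ hm]
    refine lintegral_congr fun ξ => ?_
    rw [mul_assoc c⁻¹, ← mul_assoc c, ENNReal.mul_inv_cancel hc0 hct, one_mul]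
  rw [hscale]
  calc c * ∫⁻ ξ : E 3, (c⁻¹ * w (yc e ξ, ⟪n, ξ⟫)) * ‖EE f ξ‖ₑ ^ 2
      ≤ c * (C * Nq q f ^ 2) := by gcongr
    _ = C * c * Nq q f ^ 2 := by ring
    _ ≤ _ := by
        gcongr
        exact le_self_add

end Pool.Agent.K4H46.OW
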