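import Mathlib
import Pool.Agent.K4H46.OW.NW

set_option autoImplicit false

/-! Sets with nested sections, all exponents. -/

namespace Pool.Agent.K4H46.OW

open MeasureTheory Set Complex
open scoped ENNReal NNReal RealInnerProductSpace
open Pool.Agent.K4H46.RX Pool.Agent.K4H46.CW

/-- the bounds for one piece -/
theorem pieceK {q κ : ℝ} (hq : 3 < q) (hk1 : 1 / 3 < κ) (hk2 : κ < 1 / 2) (hk3 : κ < 1 - 2 / q) :
    ∃ C : ℝ≥0∞, C ≠ ∞ ∧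
    ∀ (e : OrthonormalBasis (Fin 3) ℝ (E 3)) (n : E 3), n 0 ^ 2 + n 1 ^ 2 + n 2 ^ 2 = 1 →
      (⟪n, e 2⟫ : ℝ) ≠ 0 → ∀ Z : Set (E 2 × ℝ), MeasurableSet Z → Ch Z →
      ∀ f : E 2 → ℂ, Ok f → ∀ R : ℝ≥0∞, R ≠ 0 → R ≠ ∞ → ∀ m : ℝ≥0∞, m ≠ ∞ →
      volume (XX e n Z) ≤ m →
      Ms (XX e n (ZR Z R)) f ^ 2 ≤ C * Nq q f ^ 2 * m ^ κ ∧
      Ms (XX e n (ZR Z R)) f ^ 2 ≤ C * Nq q f ^ 2 * (R * m) ^ (1 / 2 : ℝ) ∧
      Ms (XX e n (ZR Z R)) f ^ 2 ≤ C * Nq q f ^ 2 * (R⁻¹ * m) ^ (2 / 3 : ℝ) := by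
  have hq0 : 0 < q := by linarith
  have h12 : 0 < 1 - 2 * κ := by linarith
  set m' : ℝ := (1 - κ) / (1 - 2 * κ) with hm'
  have hm2 : 2 < m' := by
    rw [hm', lt_div_iff₀ h12]
    linarith
  have h2m : 2 * m' - 1 = 1 / (1 - 2 * κ) := by
    rw [hm']
    field_simp
    ring
  have hne2 : 1 - 2 * κ ≠ 0 := h12.ne'
  have hm1 : m' - 1 = κ / (1 - 2 * κ) := by
    rw [hm', div_sub_one hne2]
    congr 1
    ring
  have hκe : (m' - 1) / (2 * m' - 1) = κ := by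
    rw [h2m, hm1, div_div_div_cancel_right₀ hne2, div_one]
  have hκ0 : 0 < κ := by linarith
  have hκ1 : κ ≤ 1 := by linarith
  obtain ⟨C1, hC1t, hC1⟩ := E1 hm2 hq (by
    have h5 : m' / (2 * m' - 1) = 1 - κ := by
      rw [h2m, hm', div_div_div_cancel_right₀ hne2, div_one]
    rw [h5]
    linarith)
  rw [hκe] at hC1
  obtain ⟨C3, hC3t, hC3⟩ := E3 hq
  obtain ⟨C4, hC4t, hC4⟩ := E4 hq
  set C : ℝ≥0∞ := 2 * (C1 ^ 2 + C3 ^ 2 + C4 ^ 2) with hC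
  have hCt : C ≠ ∞ := by
    rw [hC]
    exact ENNReal.mul_ne_top (by norm_num) (ENNReal.add_ne_top.2 ⟨ENNReal.add_ne_top.2
      ⟨ENNReal.pow_ne_top hC1t, ENNReal.pow_ne_top hC3t⟩, ENNReal.pow_ne_top hC4t⟩)
  have hle1 : C1 ^ 2 * 2 ≤ C := by
    rw [hC, mul_comm, add_assoc]
    gcongr
    exact le_self_add
  have hle3 : C3 ^ 2 ≤ C := by
    rw [hC, two_mul, add_right_comm (C1 ^ 2)]
    exact le_trans (le_trans le_add_self le_self_add) le_self_add |>.trans (by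
      rw [add_right_comm (C1 ^ 2)])
  have hle4 : C4 ^ 2 * 2 ≤ C := by
    rw [hC, mul_comm]
    gcongr
    exact le_add_self
  refine ⟨C, hCt, ?_⟩
  intro e n hn hne Z hZ hch f hf R hR0 hRt m hmt hm
  set μ0 : ℝ := |(⟪n, e 2⟫ : ℝ)| with hμ0
  have hμpos : 0 < μ0 := abs_pos.2 hne
  have hμ1 : μ0 ≤ 1 := mu_le e hn
  have hX1 : 1 ≤ ENNReal.ofReal (1 / μ0) := by
    rw [← ENNReal.ofReal_one]
    apply ENNReal.ofReal_le_ofReal
    rw [le_div_iff₀ hμpos]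
    linarith
  set A : Set (E 2) := {y | R ≤ rho Z y ∧ rho Z y < 2 * R} with hA
  have hAm : MeasurableSet A :=
    (measurableSet_le measurable_const (rho_meas hZ)).inter
      (measurableSet_lt (rho_meas hZ) measurable_const)
  have h2R : 2 * R ≠ ∞ := ENNReal.mul_ne_top (by norm_num) hRt
  obtain ⟨B, hBm, hBle, hB⟩ := chain_cover Z hZ hch A (2 * R) h2R (fun y hy => hy.2.le)
  have hBt : volume B ≠ ∞ := ne_top_of_le_ne_top h2R hBle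
  have hRA : ENNReal.ofReal (1 / μ0) * (R * volume A) ≤ m := by
    refine le_trans ?_ hm
    rw [XX_vol e n hne hZ]
    gcongr
    calc R * volume A = ∫⁻ y in A, R := by rw [setLIntegral_const]
      _ ≤ ∫⁻ y in A, rho Z y := setLIntegral_mono' hAm fun y hy => hy.1
      _ ≤ ∫⁻ y, rho Z y := setLIntegral_le_lintegral _ _
      _ = _ := rfl
  have hRA' : R * volume A ≤ m := le_trans (le_mul_of_one_le_left zero_le hX1) hRA
  have hvA : volume A ≤ R⁻¹ * m := by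
    calc volume A = R⁻¹ * (R * volume A) := by
          rw [← mul_assoc, ENNReal.inv_mul_cancel hR0 hRt, one_mul]
      _ ≤ R⁻¹ * m := by gcongr
  have hAt : volume A ≠ ∞ := ne_top_of_le_ne_top
    (ENNReal.mul_ne_top (ENNReal.inv_ne_top.2 hR0) hmt) hvA
  set S := SS e n A B with hS
  have hvS : volume S ≤ 2 * m := by
    rw [hS, SS_vol e n hne hAm hBm]
    calc ENNReal.ofReal (1 / μ0) * (volume A * volume B)
        ≤ ENNReal.ofReal (1 / μ0) * (volume A * (2 * R)) := by gcongr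
      _ = 2 * (ENNReal.ofReal (1 / μ0) * (R * volume A)) := by ring
      _ ≤ 2 * m := by gcongr
  have h2m' : 2 * m ≠ ∞ := ENNReal.mul_ne_top (by norm_num) hmt
  have hSt : volume S ≠ ∞ := ne_top_of_le_ne_top h2m' hvS
  set N := Nq q f with hN
  have hsub : Ms (XX e n (ZR Z R)) f ≤ Ms S f := by
    apply mono_ae
    set Z0 : Set (E 2 × ℝ) := Z ∩ {z | z.1 ∈ A ∧ z.2 ∉ B} with hZ0
    have hZ0m : MeasurableSet Z0 := hZ.inter ((measurable_fst hAm).inter (measurable_snd hBm.compl))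
    have h1 : XX e n (ZR Z R) \ S ⊆ XX e n Z0 := by
      rintro ξ ⟨⟨h2, h3⟩, h4⟩
      refine ⟨h2, h3, fun h5 => h4 ⟨h3, h5⟩⟩
    refine measure_mono_null h1 ?_
    rw [XX_vol e n hne hZ0m]
    have h2 : ∀ y : E 2, volume (Prod.mk y ⁻¹' Z0) = 0 := by
      intro y
      by_cases hy : y ∈ A
      · have h3 : Prod.mk y ⁻¹' Z0 ⊆ Prod.mk y ⁻¹' Z \ B := fun t ht => ⟨ht.1, ht.2.2⟩
        exact measure_mono_null h3 (hB y hy)
      · have : Prod.mk y ⁻¹' Z0 = ∅ := by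
          ext t
          simp only [mem_preimage, mem_empty_iff_false, iff_false]
          exact fun ht => hy ht.2.1
        rw [this, measure_empty]
    simp_rw [h2]
    simp
  have hsub2 : Ms (XX e n (ZR Z R)) f ^ 2 ≤ Ms S f ^ 2 := by gcongr
  refine ⟨hsub2.trans ?_, hsub2.trans ?_, hsub2.trans ?_⟩
  · by_cases hz : volume S = 0
    · have : Ms S f = 0 := by
        unfold Ms
        rw [Measure.restrict_eq_zero.2 hz, lintegral_zero_measure, ENNReal.zero_rpow_of_pos (by norm_num)]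
      rw [this]
      simp
    · have hA0 : volume A ≠ 0 := by
        intro h
        apply hz
        rw [hS, SS_vol e n hne hAm hBm, h]
        simp
      have hB0 : volume B ≠ 0 := by
        intro h
        apply hz
        rw [hS, SS_vol e n hne hAm hBm, h]
        simp
      have h1 := hC1 e n hn hne A B hAm hBm hA0 hAt hB0 hBt f hf
      have h22 : (2 : ℝ≥0∞) ^ κ ≤ 2 := by
        calc (2 : ℝ≥0∞) ^ κ ≤ 2 ^ (1 : ℝ) :=
              ENNReal.rpow_le_rpow_of_exponent_le (by norm_num) hκ1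
          _ = 2 := ENNReal.rpow_one 2
      calc Ms S f ^ 2 ≤ (C1 * (volume S ^ (κ / 2) * N)) ^ 2 := by gcongr
        _ = C1 ^ 2 * N ^ 2 * (volume S ^ (κ / 2)) ^ 2 := by ring
        _ = C1 ^ 2 * N ^ 2 * volume S ^ κ := by rw [rsq _ _ κ (by ring)]
        _ ≤ C1 ^ 2 * N ^ 2 * (2 * m) ^ κ := by gcongr
        _ = C1 ^ 2 * N ^ 2 * (2 ^ κ * m ^ κ) := by rw [ENNReal.mul_rpow_of_nonneg _ _ hκ0.le]
        _ ≤ C1 ^ 2 * N ^ 2 * (2 * m ^ κ) := by gcongr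
        _ = (C1 ^ 2 * 2) * N ^ 2 * m ^ κ := by ring
        _ ≤ C * N ^ 2 * m ^ κ := by gcongr
  · have h1 := hC4 e n hn hne A B hAm hBm hSt f hf
    calc Ms S f ^ 2 ≤ (C4 * ((volume B * volume S) ^ (1 / 4 : ℝ) * N)) ^ 2 := by gcongr
      _ = C4 ^ 2 * N ^ 2 * ((volume B * volume S) ^ (1 / 4 : ℝ)) ^ 2 := by ring
      _ = C4 ^ 2 * N ^ 2 * (volume B * volume S) ^ (1 / 2 : ℝ) := by
          rw [rsq _ _ (1 / 2) (by norm_num)]
      _ ≤ C4 ^ 2 * N ^ 2 * ((2 * R) * (2 * m)) ^ (1 / 2 : ℝ) := by gcongr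
      _ = C4 ^ 2 * N ^ 2 * ((2 * 2) * (R * m)) ^ (1 / 2 : ℝ) := by
          rw [mul_mul_mul_comm]
      _ = C4 ^ 2 * N ^ 2 * (2 * (R * m) ^ (1 / 2 : ℝ)) := by
          rw [ENNReal.mul_rpow_of_nonneg _ _ (by norm_num : (0 : ℝ) ≤ 1 / 2),
            ENNReal.mul_rpow_of_nonneg 2 2 (by norm_num : (0 : ℝ) ≤ 1 / 2),
            ← ENNReal.rpow_add_of_nonneg _ _ (by norm_num) (by norm_num)]
          norm_num
      _ = (C4 ^ 2 * 2) * N ^ 2 * (R * m) ^ (1 / 2 : ℝ) := by ring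
      _ ≤ _ := by gcongr
  · have h1 := hC3 e n hn A B hAm hBm f hf
    calc Ms S f ^ 2 ≤ (C3 * (volume A ^ (1 / 3 : ℝ) * N)) ^ 2 := by gcongr
      _ = C3 ^ 2 * N ^ 2 * (volume A ^ (1 / 3 : ℝ)) ^ 2 := by ring
      _ = C3 ^ 2 * N ^ 2 * volume A ^ (2 / 3 : ℝ) := by rw [rsq _ _ (2 / 3) (by norm_num)]
      _ ≤ C * N ^ 2 * (R⁻¹ * m) ^ (2 / 3 : ℝ) := by gcongr


/-- the estimate for sets with nested sections -/
theorem setestG {q η : ℝ} (hq : 3 < q) (hη : 1 / 3 < η) : ∃ (C : ℝ≥0∞) (κ1 κ2 : ℝ), C ≠ ∞ ∧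
    1 / 3 ≤ κ1 ∧ κ1 ≤ η ∧ 1 / 3 ≤ κ2 ∧ κ2 ≤ η ∧
    ∀ (e : OrthonormalBasis (Fin 3) ℝ (E 3)) (n : E 3), n 0 ^ 2 + n 1 ^ 2 + n 2 ^ 2 = 1 →
      (⟪n, e 2⟫ : ℝ) ≠ 0 → ∀ Z : Set (E 2 × ℝ), MeasurableSet Z → Ch Z →
      ∀ f : E 2 → ℂ, Ok f → ∀ m : ℝ≥0∞, m ≠ ∞ → volume (XX e n Z) ≤ m →
      Ms (XX e n Z) f ^ 2 ≤ C * Nq q f ^ 2 * (m ^ κ1 + m ^ κ2) := by
  have hq2 : 0 < q - 2 := by linarith
  have hq0 : 0 < q := by linarith
  have hq3 : 1 / 3 < 1 - 2 / q := by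
    have : 2 / q < 2 / 3 := div_lt_div_of_pos_left (by norm_num) (by norm_num) hq
    linarith
  set η1 : ℝ := min (min η (1 - 2 / q)) (1 / 2) with hη1
  have hη1a : 1 / 3 < η1 := lt_min (lt_min hη hq3) (by norm_num)
  have hη1b : η1 ≤ η := (min_le_left _ _).trans (min_le_left _ _)
  have hη1c : η1 ≤ 1 - 2 / q := (min_le_left _ _).trans (min_le_right _ _)
  have hη1d : η1 ≤ 1 / 2 := min_le_right _ _
  set κ : ℝ := (1 / 3 + η1) / 2 with hκ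
  have hκ13 : 1 / 3 < κ := by rw [hκ]; linarith
  have hκ0 : 0 < κ := by linarith
  have hκη : κ < η1 := by rw [hκ]; linarith
  have hκ2 : κ < 1 / 2 := by linarith
  obtain ⟨C, hCt, hC⟩ := pieceK hq hκ13 hκ2 (lt_of_lt_of_le hκη hη1c)
  set θ : ℝ := η1 - κ with hθ
  have hθ0 : 0 < θ := by rw [hθ]; linarith
  have hθ1 : θ ≤ 1 := by rw [hθ]; linarith
  have hκθ : κ + θ = η1 := by rw [hθ]; ring
  set κ1 : ℝ := κ * (1 - θ) + 2 / 3 * θ with hκ1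
  set κ2 : ℝ := κ * (1 - θ) + 1 / 2 * θ with hκ2'
  have h1θ : 0 ≤ 1 - θ := by linarith
  have hκ1lt : κ1 ≤ κ + θ := by
    rw [hκ1]
    nlinarith
  have hκ2lt : κ2 ≤ κ + θ := by
    rw [hκ2']
    nlinarith
  have hκ10 : 1 / 3 ≤ κ1 := by
    rw [hκ1]
    nlinarith
  have hκ20 : 1 / 3 ≤ κ2 := by
    rw [hκ2']
    nlinarith
  set a1 : ℝ≥0∞ := 2⁻¹ ^ (2 / 3 * θ) with ha1
  set a2 : ℝ≥0∞ := 2⁻¹ ^ (1 / 2 * θ) with ha2
  have hhalf : (2⁻¹ : ℝ≥0∞) < 1 := by norm_num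
  have ha1lt : a1 < 1 := ENNReal.rpow_lt_one hhalf (by positivity)
  have ha2lt : a2 < 1 := ENNReal.rpow_lt_one hhalf (by positivity)
  have ht1 : (1 - a1)⁻¹ ≠ ∞ := ENNReal.inv_ne_top.2 (tsub_pos_of_lt ha1lt).ne'
  have ht2 : (1 - a2)⁻¹ ≠ ∞ := ENNReal.inv_ne_top.2 (tsub_pos_of_lt ha2lt).ne'
  refine ⟨C * ((1 - a1)⁻¹ + (1 - a2)⁻¹), κ1, κ2, ENNReal.mul_ne_top hCt
    (ENNReal.add_ne_top.2 ⟨ht1, ht2⟩), hκ10, by linarith, hκ20, by linarith, ?_⟩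
  intro e n hn hne Z hZ hch f hf m hmt hm
  set N := Nq q f with hN
  have hfac : ∀ P R : ℝ≥0∞, (C * N ^ 2 * P) ^ (1 - θ) * (C * N ^ 2 * R) ^ θ =
      C * N ^ 2 * (P ^ (1 - θ) * R ^ θ) := by
    intro P R
    rw [ENNReal.mul_rpow_of_nonneg _ _ h1θ, ENNReal.mul_rpow_of_nonneg _ _ hθ0.le]
    calc (C * N ^ 2) ^ (1 - θ) * P ^ (1 - θ) * ((C * N ^ 2) ^ θ * R ^ θ)
        = ((C * N ^ 2) ^ (1 - θ) * (C * N ^ 2) ^ θ) * (P ^ (1 - θ) * R ^ θ) := by ring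
      _ = _ := by
          rw [← ENNReal.rpow_add_of_nonneg _ _ h1θ hθ0.le]
          simp
  have hpc : ∀ (R b : ℝ≥0∞) (c : ℝ), 0 < c → (m ^ κ) ^ (1 - θ) * ((b * m) ^ c) ^ θ =
      m ^ (κ * (1 - θ) + c * θ) * b ^ (c * θ) := by
    intro R b c hc
    rw [← ENNReal.rpow_mul, ← ENNReal.rpow_mul, ENNReal.mul_rpow_of_nonneg _ _ (by positivity),
      ENNReal.rpow_add_of_nonneg _ _ (by positivity) (by positivity)]
    ring
  have hp1 : ∀ j : ℕ, Ms (XX e n (ZR Z (2 ^ j))) f ^ 2 ≤ C * N ^ 2 * m ^ κ1 * a1 ^ j := by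
    intro j
    obtain ⟨h1, -, h3⟩ := hC e n hn hne Z hZ hch f hf (2 ^ j) (pow_ne_zero _ (by norm_num))
      (ENNReal.pow_ne_top (by norm_num)) m hmt hm
    have h4 := geo2 hθ0.le hθ1 h1 h3
    rw [hfac, hpc 0 _ _ (by norm_num)] at h4
    refine h4.trans (le_of_eq ?_)
    have h5 : ((2 : ℝ≥0∞) ^ j)⁻¹ ^ (2 / 3 * θ) = a1 ^ j := by
      rw [ha1, ENNReal.inv_pow, ← ENNReal.rpow_natCast, ← ENNReal.rpow_natCast,
        ← ENNReal.rpow_mul, ← ENNReal.rpow_mul, mul_comm]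
    rw [h5, mul_assoc (C * N ^ 2)]
  have hp2 : ∀ j : ℕ, Ms (XX e n (ZR Z (2⁻¹ ^ j))) f ^ 2 ≤ C * N ^ 2 * m ^ κ2 * a2 ^ j := by
    intro j
    obtain ⟨h1, h2, -⟩ := hC e n hn hne Z hZ hch f hf (2⁻¹ ^ j) (pow_ne_zero _ (by norm_num))
      (ENNReal.pow_ne_top (by norm_num)) m hmt hm
    have h4 := geo2 hθ0.le hθ1 h1 h2
    rw [hfac, hpc 0 _ _ (by norm_num)] at h4
    refine h4.trans (le_of_eq ?_)
    have h5 : ((2⁻¹ : ℝ≥0∞) ^ j) ^ (1 / 2 * θ) = a2 ^ j := by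
      rw [ha2, ← ENNReal.rpow_natCast, ← ENNReal.rpow_natCast,
        ← ENNReal.rpow_mul, ← ENNReal.rpow_mul, mul_comm]
    rw [h5, mul_assoc (C * N ^ 2)]
  calc Ms (XX e n Z) f ^ 2
      ≤ (∑' j : ℕ, Ms (XX e n (ZR Z (2 ^ j))) f ^ 2) +
        ∑' j : ℕ, Ms (XX e n (ZR Z (2⁻¹ ^ j))) f ^ 2 :=
        cover e n hne Z hZ (ne_top_of_le_ne_top hmt hm) f
    _ ≤ (∑' j : ℕ, C * N ^ 2 * m ^ κ1 * a1 ^ j) + ∑' j : ℕ, C * N ^ 2 * m ^ κ2 * a2 ^ j := by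
        gcongr with j j
        · exact hp1 j
        · exact hp2 j
    _ = C * N ^ 2 * m ^ κ1 * (1 - a1)⁻¹ + C * N ^ 2 * m ^ κ2 * (1 - a2)⁻¹ := by
        rw [ENNReal.tsum_mul_left, ENNReal.tsum_mul_left, ENNReal.tsum_geometric,
          ENNReal.tsum_geometric]
    _ ≤ C * N ^ 2 * m ^ κ1 * ((1 - a1)⁻¹ + (1 - a2)⁻¹) +
        C * N ^ 2 * m ^ κ2 * ((1 - a1)⁻¹ + (1 - a2)⁻¹) := by
        gcongr
        · exact le_self_add
        · exact le_add_self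
    _ = _ := by ring


end Pool.Agent.K4H46.OW
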