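import Mathlib
import Pool.Agent.K4H46.OW.CV

set_option autoImplicit false

/-! Weights whose level sets are covered by sets with nested sections. -/

namespace Pool.Agent.K4H46.OW

open MeasureTheory Set Complex
open scoped ENNReal NNReal RealInnerProductSpace
open Pool.Agent.K4H46.RX Pool.Agent.K4H46.CW

/-- `P` has nested sections in some coordinates -/
def NS (P : Set (E 3)) : Prop :=
  ∃ (e : OrthonormalBasis (Fin 3) ℝ (E 3)) (n : E 3) (Z : Set (E 2 × ℝ)),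
    n 0 ^ 2 + n 1 ^ 2 + n 2 ^ 2 = 1 ∧ (⟪n, e 2⟫ : ℝ) ≠ 0 ∧ MeasurableSet Z ∧ Ch Z ∧ P = XX e n Z

/-- the estimate for covered sets -/
theorem cov_est {q η : ℝ} (hq : 3 < q) (hη : 1 / 3 < η) : ∃ C : ℝ≥0∞, C ≠ ∞ ∧
    ∀ (X : Set (E 3)) (P : ℕ → Set (E 3)), (∀ i, NS (P i)) → volume (X \ ⋃ i, P i) = 0 →
      ∀ f : E 2 → ℂ, Ok f → ∀ Φ : ℝ≥0∞, Φ ≠ ∞ → 1 ≤ Φ →
      ∑' i, volume (P i) ^ (1 / 3 : ℝ) ≤ Φ → Ms X f ^ 2 ≤ C * Nq q f ^ 2 * Φ ^ (3 * η) := by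
  obtain ⟨C, κ1, κ2, hCt, h1, h1', h2, h2', hC⟩ := setestG hq hη
  refine ⟨2 * C, ENNReal.mul_ne_top (by norm_num) hCt, ?_⟩
  intro X P hP hX f hf Φ hΦt hΦ1 hsum
  set N := Nq q f with hN
  have hai : ∀ i, volume (P i) ^ (1 / 3 : ℝ) ≤ Φ := fun i =>
    (ENNReal.le_tsum (f := fun i => volume (P i) ^ (1 / 3 : ℝ)) i).trans hsum
  have hvi : ∀ i, volume (P i) ≠ ∞ := by
    intro i h
    have := hai i
    rw [h, ENNReal.top_rpow_of_pos (by norm_num)] at this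
    exact hΦt (top_le_iff.1 this)
  have hone : ∀ i, Ms (P i) f ^ 2 ≤
      C * N ^ 2 * (volume (P i) ^ κ1 + volume (P i) ^ κ2) := by
    intro i
    obtain ⟨e, n, Z, hn, hne, hZ, hch, hPe⟩ := hP i
    have h3 := hC e n hn hne Z hZ hch f hf (volume (P i)) (hvi i) (le_of_eq (by rw [hPe]))
    rw [← hPe] at h3
    exact h3
  have hsk : ∀ κ : ℝ, 1 / 3 ≤ κ → κ ≤ η → ∑' i, volume (P i) ^ κ ≤ Φ ^ (3 * η) := by
    intro κ hκ1 hκ2
    calc ∑' i, volume (P i) ^ κ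
        ≤ ∑' i, volume (P i) ^ (1 / 3 : ℝ) * Φ ^ (3 * κ - 1) := by
          refine ENNReal.tsum_le_tsum fun i => ?_
          calc volume (P i) ^ κ
              = volume (P i) ^ (1 / 3 : ℝ) * (volume (P i) ^ (1 / 3 : ℝ)) ^ (3 * κ - 1) := by
                rw [← ENNReal.rpow_mul, ← ENNReal.rpow_add_of_nonneg _ _ (by norm_num)
                  (mul_nonneg (by norm_num) (by linarith))]
                congr 1
                ring
            _ ≤ volume (P i) ^ (1 / 3 : ℝ) * Φ ^ (3 * κ - 1) := by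
                have h4 : 0 ≤ 3 * κ - 1 := by linarith
                have h5 := hai i
                gcongr
      _ = (∑' i, volume (P i) ^ (1 / 3 : ℝ)) * Φ ^ (3 * κ - 1) := ENNReal.tsum_mul_right
      _ ≤ Φ ^ (1 : ℝ) * Φ ^ (3 * κ - 1) := by
          rw [ENNReal.rpow_one]
          gcongr
      _ = Φ ^ (3 * κ) := by
          rw [← ENNReal.rpow_add_of_nonneg _ _ (by norm_num) (by linarith)]
          congr 1
          ring
      _ ≤ Φ ^ (3 * η) := ENNReal.rpow_le_rpow_of_exponent_le hΦ1 (by linarith)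
  have hmono : Ms X f ≤ Ms (⋃ i, P i) f := mono_ae hX f
  calc Ms X f ^ 2 ≤ Ms (⋃ i, P i) f ^ 2 := by gcongr
    _ = ∫⁻ ξ in ⋃ i, P i, ‖EE f ξ‖ₑ ^ 2 := Ms_sq _ _
    _ ≤ ∑' i, ∫⁻ ξ in P i, ‖EE f ξ‖ₑ ^ 2 := lintegral_iUnion_le _ _
    _ = ∑' i, Ms (P i) f ^ 2 := by simp_rw [Ms_sq]
    _ ≤ ∑' i, C * N ^ 2 * (volume (P i) ^ κ1 + volume (P i) ^ κ2) :=
        ENNReal.tsum_le_tsum hone
    _ = C * N ^ 2 * ((∑' i, volume (P i) ^ κ1) + ∑' i, volume (P i) ^ κ2) := by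
        rw [ENNReal.tsum_mul_left, ENNReal.tsum_add]
    _ ≤ C * N ^ 2 * (Φ ^ (3 * η) + Φ ^ (3 * η)) := by
        gcongr
        · exact hsk κ1 h1 h1'
        · exact hsk κ2 h2 h2'
    _ = _ := by ring

/-- the covering condition -/
def Cov (K : ℝ≥0∞) (θ : ℝ) (X : Set (E 3)) : Prop :=
  ∃ P : ℕ → Set (E 3), (∀ i, NS (P i)) ∧ volume (X \ ⋃ i, P i) = 0 ∧
    ∑' i, volume (P i) ^ (1 / 3 : ℝ) ≤ K * (1 + volume X) ^ θ

/-- the normalised weighted estimate -/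
theorem WTcn {q θ : ℝ} {K : ℝ≥0∞} (hq : 3 < q) (hθ0 : 0 ≤ θ) (hθ : θ < 1 - 2 / q) (hK1 : 1 ≤ K)
    (hKt : K ≠ ∞) : ∃ C : ℝ≥0∞, C ≠ ∞ ∧
    ∀ W : E 3 → ℝ≥0∞, Measurable W → (∀ c : ℝ≥0∞, c ≠ 0 → c ≠ ∞ →
      volume {ξ : E 3 | c < W ξ} ≠ 0 → volume {ξ : E 3 | c < W ξ} ≠ ∞ →
      Cov K θ {ξ : E 3 | c < W ξ}) →
      ∫⁻ ξ : E 3, W ξ ^ (q / (q - 2)) ≤ 1 → ∀ f : E 2 → ℂ, Ok f →
      ∫⁻ ξ, W ξ * ‖EE f ξ‖ₑ ^ 2 ≤ C * Nq q f ^ 2 := by
  have hq2 : 0 < q - 2 := by linarith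
  have hq0 : 0 < q := by linarith
  set r : ℝ := q / (q - 2) with hr
  have hr1 : 1 < r := by rw [hr, lt_div_iff₀ hq2]; linarith
  have hr0 : 0 < r := by linarith
  set t : ℝ := r * θ with ht
  have ht0 : 0 ≤ t := by positivity
  have ht1 : t < 1 := by
    have h1 : r * (1 - 2 / q) = 1 := by
      rw [hr]
      field_simp
    calc t = r * θ := rfl
      _ < r * (1 - 2 / q) := by gcongr
      _ = 1 := h1
  have h1t : 0 < 1 + t := by linarith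
  set η : ℝ := 2 / (3 * (1 + t)) with hη
  have h3η : 3 * η = 2 / (1 + t) := by
    rw [hη]
    field_simp
  have hη1 : 1 / 3 < η := by
    rw [hη, div_lt_div_iff₀ (by norm_num) (by positivity)]
    linarith
  have hη0 : 0 < η := by linarith
  obtain ⟨C, hCt, hC⟩ := cov_est hq hη1
  set x0 : ℝ := r * (θ * (3 * η)) with hx0
  have hx01 : x0 < 1 := by
    have : x0 = 2 * t / (1 + t) := by
      rw [hx0, h3η, ht]
      ring
    rw [this, div_lt_one h1t]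
    linarith
  set C' : ℝ≥0∞ := C * (K ^ (3 * η) * 2 ^ (θ * (3 * η))) + 8 ^ 2 with hC'
  have hC't : C' ≠ ∞ := by
    rw [hC']
    refine ENNReal.add_ne_top.2 ⟨ENNReal.mul_ne_top hCt (ENNReal.mul_ne_top ?_ ?_), by norm_num⟩
    · exact ENNReal.rpow_ne_top_of_nonneg (by positivity) hKt
    · exact ENNReal.rpow_ne_top_of_nonneg (by positivity) (by norm_num)
  set J : ℝ≥0∞ := (∫⁻ s, lo x0 s) + (∫⁻ s, hi r s) with hJ
  have hJt : J ≠ ∞ := ENNReal.add_ne_top.2 ⟨lo_fin hx01, hi_fin hr1⟩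
  refine ⟨C' * J, ENNReal.mul_ne_top hC't hJt, ?_⟩
  intro W hWm hcov hI f hf
  have hGm : Measurable fun ξ : E 3 => ‖EE f ξ‖ₑ ^ 2 := (EE_meas hf.meas).enorm.pow_const 2
  rw [layer1 volume _ _ hWm hGm]
  set N := Nq q f with hN
  have hpt : ∀ s ∈ Ioi (0 : ℝ),
      ∫⁻ ξ in {ξ : E 3 | ENNReal.ofReal s < W ξ}, ‖EE f ξ‖ₑ ^ 2 ≤
        C' * N ^ 2 * (lo x0 s + hi r s) := by
    intro s hs
    have hs0 : 0 < s := hs
    set σ : ℝ≥0∞ := ENNReal.ofReal s with hσ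
    have hvol : volume {ξ : E 3 | σ < W ξ} ≤ σ ^ (-r) := by
      have := cheb volume hWm hr0 hI hs0
      rwa [one_mul] at this
    have hσ0 : σ ≠ 0 := by
      rw [hσ]
      simp only [ne_eq, ENNReal.ofReal_eq_zero, not_le]; exact hs0
    have hσt : σ ≠ ∞ := ENNReal.ofReal_ne_top
    have hmt : σ ^ (-r) ≠ ∞ := ENNReal.rpow_ne_top_of_ne_zero hσ0 hσt
    set X : Set (E 3) := {ξ : E 3 | σ < W ξ} with hX
    rw [← Ms_sq]
    rcases le_or_gt s 1 with hs1 | hs1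
    · have hsI : s ∈ Ioc (0 : ℝ) 1 := ⟨hs0, hs1⟩
      have hlos : lo x0 s = σ ^ (-x0) := indicator_of_mem hsI _
      by_cases hz : volume X = 0
      · have : Ms X f = 0 := by
          unfold Ms
          rw [Measure.restrict_eq_zero.2 hz, lintegral_zero_measure,
            ENNReal.zero_rpow_of_pos (by norm_num)]
        rw [this]
        simp
      obtain ⟨P, hP, hXP, hsum⟩ := hcov σ hσ0 hσt hz (ne_top_of_le_ne_top hmt hvol)
      have hσ1 : 1 ≤ σ ^ (-r) := by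
        have h1 : σ ≤ 1 := by
          rw [hσ, ← ENNReal.ofReal_one]
          exact ENNReal.ofReal_le_ofReal hs1
        exact ENNReal.one_le_rpow_of_pos_of_le_one_of_neg (pos_iff_ne_zero.2 hσ0) h1 (by linarith)
      set Φ : ℝ≥0∞ := K * (2 * σ ^ (-r)) ^ θ with hΦ
      have h2σt : 2 * σ ^ (-r) ≠ ∞ := ENNReal.mul_ne_top (by norm_num) hmt
      have hΦt : Φ ≠ ∞ := ENNReal.mul_ne_top hKt (ENNReal.rpow_ne_top_of_nonneg hθ0 h2σt)
      have hΦ1 : 1 ≤ Φ := by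
        have h2 : 1 ≤ (2 * σ ^ (-r)) ^ θ := by
          calc (1 : ℝ≥0∞) = 1 ^ θ := (ENNReal.one_rpow θ).symm
            _ ≤ (2 * σ ^ (-r)) ^ θ := by
                gcongr
                calc (1 : ℝ≥0∞) ≤ σ ^ (-r) := hσ1
                  _ ≤ 2 * σ ^ (-r) := le_mul_of_one_le_left zero_le (by norm_num)
        calc (1 : ℝ≥0∞) = 1 * 1 := (one_mul 1).symm
          _ ≤ Φ := mul_le_mul' hK1 h2
      have hsum' : ∑' i, volume (P i) ^ (1 / 3 : ℝ) ≤ Φ := by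
        refine hsum.trans ?_
        rw [hΦ]
        gcongr
        rw [two_mul]
        exact add_le_add hσ1 hvol
      refine (hC X P hP hXP f hf Φ hΦt hΦ1 hsum').trans ?_
      have hΦe : Φ ^ (3 * η) = K ^ (3 * η) * 2 ^ (θ * (3 * η)) * lo x0 s := by
        rw [hlos, hΦ, ENNReal.mul_rpow_of_nonneg _ _ (by positivity), ← ENNReal.rpow_mul,
          ENNReal.mul_rpow_of_nonneg _ _ (by positivity), ← ENNReal.rpow_mul, mul_assoc]
        congr 3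
        rw [hx0]
        ring
      rw [hΦe]
      calc C * N ^ 2 * (K ^ (3 * η) * 2 ^ (θ * (3 * η)) * lo x0 s)
          = (C * (K ^ (3 * η) * 2 ^ (θ * (3 * η)))) * N ^ 2 * lo x0 s := by ring
        _ ≤ C' * N ^ 2 * (lo x0 s + hi r s) :=
            mul_le_mul' (mul_le_mul' le_self_add le_rfl) le_self_add
    · have hhis : hi r s = σ ^ (-r) := indicator_of_mem (show s ∈ Ioi 1 from hs1) _
      have h1 := E2' hq X f hf
      calc Ms X f ^ 2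
          ≤ (8 * (volume X ^ (1 / 2 : ℝ) * N)) ^ 2 := by gcongr
        _ = 8 ^ 2 * N ^ 2 * (volume X ^ (1 / 2 : ℝ)) ^ 2 := by
            ring
        _ = 8 ^ 2 * N ^ 2 * volume X := by
            rw [rsq _ _ 1 (by norm_num), ENNReal.rpow_one]
        _ ≤ 8 ^ 2 * N ^ 2 * hi r s := by
            rw [hhis]
            gcongr
        _ ≤ C' * N ^ 2 * (lo x0 s + hi r s) :=
            mul_le_mul' (mul_le_mul' le_add_self le_rfl) le_add_self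
  calc ∫⁻ s in Ioi (0 : ℝ), ∫⁻ ξ in {ξ : E 3 | ENNReal.ofReal s < W ξ}, ‖EE f ξ‖ₑ ^ 2
      ≤ ∫⁻ s in Ioi (0 : ℝ), C' * N ^ 2 * (lo x0 s + hi r s) :=
        setLIntegral_mono' measurableSet_Ioi hpt
    _ ≤ ∫⁻ s : ℝ, C' * N ^ 2 * (lo x0 s + hi r s) := setLIntegral_le_lintegral _ _
    _ = C' * J * N ^ 2 := by
        have hm : Measurable fun s : ℝ => lo x0 s + hi r s := (lo_meas _).add (hi_meas r)
        rw [lintegral_const_mul _ hm, lintegral_add_right _ (hi_meas r), hJ]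
        ring

/-- **the weighted estimate for covered level sets** -/
theorem WTc {q θ : ℝ} {K : ℝ≥0∞} (hq : 3 < q) (hθ0 : 0 ≤ θ) (hθ : θ < 1 - 2 / q) (hK1 : 1 ≤ K)
    (hKt : K ≠ ∞) : ∃ C : ℝ≥0∞, C ≠ ∞ ∧
    ∀ W : E 3 → ℝ≥0∞, Measurable W → (∀ c : ℝ≥0∞, c ≠ 0 → c ≠ ∞ →
      volume {ξ : E 3 | c < W ξ} ≠ 0 → volume {ξ : E 3 | c < W ξ} ≠ ∞ →
      Cov K θ {ξ : E 3 | c < W ξ}) →
      ∀ f : E 2 → ℂ, Ok f →
      ∫⁻ ξ, W ξ * ‖EE f ξ‖ₑ ^ 2 ≤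
        C * (∫⁻ ξ : E 3, W ξ ^ (q / (q - 2))) ^ ((q - 2) / q) * Nq q f ^ 2 := by
  have hq2 : 0 < q - 2 := by linarith
  have hq0 : 0 < q := by linarith
  obtain ⟨C, hCt, hC⟩ := WTcn hq hθ0 hθ hK1 hKt
  set r : ℝ := q / (q - 2) with hr
  have hr0 : 0 < r := by positivity
  have hrinv : (q - 2) / q = 1 / r := by rw [hr, one_div_div]
  refine ⟨C + 1, ENNReal.add_ne_top.2 ⟨hCt, by norm_num⟩, ?_⟩
  intro W hWm hcov f hf
  rw [hrinv]
  set I : ℝ≥0∞ := ∫⁻ ξ : E 3, W ξ ^ r with hI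
  by_cases hI0 : I = 0
  · have h1 : (fun ξ : E 3 => W ξ ^ r) =ᵐ[volume] 0 :=
      (lintegral_eq_zero_iff (hWm.pow_const r)).1 hI0
    have hm : Measurable fun ξ : E 3 => W ξ * ‖EE f ξ‖ₑ ^ 2 :=
      hWm.mul ((EE_meas hf.meas).enorm.pow_const 2)
    have h2 : ∫⁻ ξ : E 3, W ξ * ‖EE f ξ‖ₑ ^ 2 = 0 := by
      rw [lintegral_eq_zero_iff hm]
      filter_upwards [h1] with ξ hξ
      simp only [Pi.zero_apply] at hξ ⊢
      rw [(ENNReal.rpow_eq_zero_iff_of_pos hr0).1 hξ, zero_mul]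
    rw [h2]
    exact zero_le
  by_cases hN0 : Nq q f = 0
  · have h1 : f =ᵐ[volume] 0 := by
      unfold Nq at hN0
      rw [ENNReal.rpow_eq_zero_iff_of_pos (by positivity),
        lintegral_eq_zero_iff (hf.meas.enorm.pow_const q)] at hN0
      filter_upwards [hN0] with x hx
      simp only [Pi.zero_apply] at hx
      have h3 := (ENNReal.rpow_eq_zero_iff_of_pos hq0).1 hx
      simpa using h3
    have h2 : ∀ ξ, EE f ξ = 0 := by
      intro ξ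
      rw [EE_congr h1]
      unfold EE
      simp
    simp_rw [h2]
    simp
  by_cases hIt : I = ∞
  · rw [hIt, ENNReal.top_rpow_of_pos (by positivity), ENNReal.mul_top, ENNReal.top_mul]
    · exact le_top
    · exact pow_ne_zero 2 hN0
    · exact (lt_of_lt_of_le one_pos le_add_self).ne'
  set c : ℝ≥0∞ := I ^ (1 / r) with hc
  have hc0 : c ≠ 0 := (ENNReal.rpow_pos (pos_iff_ne_zero.2 hI0) hIt).ne'
  have hct : c ≠ ∞ := ENNReal.rpow_ne_top_of_ne_zero hI0 hIt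
  have hpr : c ^ r = I := by
    rw [hc, ← ENNReal.rpow_mul]
    have : 1 / r * r = 1 := by field_simp
    rw [this, ENNReal.rpow_one]
  have hI' : ∫⁻ ξ : E 3, (c⁻¹ * W ξ) ^ r ≤ 1 := by
    simp_rw [ENNReal.mul_rpow_of_nonneg _ _ hr0.le]
    rw [lintegral_const_mul _ (hWm.pow_const r), ENNReal.inv_rpow, hpr, ← hI,
      ENNReal.inv_mul_cancel hI0 hIt]
  have hcov' : ∀ b : ℝ≥0∞, b ≠ 0 → b ≠ ∞ → volume {ξ : E 3 | b < c⁻¹ * W ξ} ≠ 0 →
      volume {ξ : E 3 | b < c⁻¹ * W ξ} ≠ ∞ → Cov K θ {ξ : E 3 | b < c⁻¹ * W ξ} := by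
    intro b hb0 hbt hv hv'
    have hset : {ξ : E 3 | b < c⁻¹ * W ξ} = {ξ : E 3 | c * b < W ξ} := by
      ext ξ
      simp only [mem_ofPred_eq]
      constructor
      · intro h
        have h1 := ENNReal.mul_lt_mul_right hc0 hct h
        rwa [← mul_assoc, ENNReal.mul_inv_cancel hc0 hct, one_mul] at h1
      · intro h
        have h1 := ENNReal.mul_lt_mul_right (ENNReal.inv_ne_zero.2 hct) (ENNReal.inv_ne_top.2 hc0) h
        rwa [← mul_assoc, ENNReal.inv_mul_cancel hc0 hct, one_mul] at h1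
    rw [hset] at hv hv' ⊢
    exact hcov (c * b) (mul_ne_zero hc0 hb0) (ENNReal.mul_ne_top hct hbt) hv hv'
  have hmain := hC (fun ξ => c⁻¹ * W ξ) (hWm.const_mul _) hcov' hI' f hf
  have hscale : ∫⁻ ξ : E 3, W ξ * ‖EE f ξ‖ₑ ^ 2 =
      c * ∫⁻ ξ : E 3, (c⁻¹ * W ξ) * ‖EE f ξ‖ₑ ^ 2 := by
    have hm : Measurable fun ξ : E 3 => (c⁻¹ * W ξ) * ‖EE f ξ‖ₑ ^ 2 :=
      (hWm.const_mul _).mul ((EE_meas hf.meas).enorm.pow_const 2)
    rw [← lintegral_const_mul _ hm]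
    refine lintegral_congr fun ξ => ?_
    rw [mul_assoc c⁻¹, ← mul_assoc c, ENNReal.mul_inv_cancel hc0 hct, one_mul]
  rw [hscale]
  calc c * ∫⁻ ξ : E 3, (c⁻¹ * W ξ) * ‖EE f ξ‖ₑ ^ 2
      ≤ c * (C * Nq q f ^ 2) := by gcongr
    _ = C * c * Nq q f ^ 2 := by ring
    _ ≤ _ := by
        gcongr
        exact le_self_add

end Pool.Agent.K4H46.OW
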