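import Mathlib
import Pool.Agent.K4H46.OW.COV

set_option autoImplicit false

/-! Boxes, convex sets and sets nested in linear coordinates. -/

namespace Pool.Agent.K4H46.OW

open MeasureTheory Set Complex
open scoped ENNReal NNReal RealInnerProductSpace
open Pool.Agent.K4H46.RX Pool.Agent.K4H46.CW

theorem unit_e (e : OrthonormalBasis (Fin 3) ℝ (E 3)) :
    (e 2 : E 3) 0 ^ 2 + (e 2 : E 3) 1 ^ 2 + (e 2 : E 3) 2 ^ 2 = 1 := by
  have h0 : ‖(e 2 : E 3)‖ = 1 := e.orthonormal.1 2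
  have h1 : ‖(e 2 : E 3)‖ ^ 2 = 1 := by rw [h0]; norm_num
  rw [EuclideanSpace.norm_sq_eq, Fin.sum_univ_three] at h1
  simpa using h1

theorem inner_e (e : OrthonormalBasis (Fin 3) ℝ (E 3)) : (⟪(e 2 : E 3), e 2⟫ : ℝ) ≠ 0 := by
  have h := orthonormal_iff_ite.1 e.orthonormal 2 2
  rw [h]
  simp

theorem NS_empty : NS ∅ := by
  refine ⟨EuclideanSpace.basisFun (Fin 3) ℝ, EuclideanSpace.basisFun (Fin 3) ℝ 2, ∅, unit_e _,
    inner_e _, MeasurableSet.empty, ?_, ?_⟩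
  · intro y y'
    left
    simp
  · ext ξ
    simp [XX]

/-- a box -/
def box (e : OrthonormalBasis (Fin 3) ℝ (E 3)) (a b : Fin 3 → ℝ) : Set (E 3) :=
  {ξ | ∀ i, (⟪e i, ξ⟫ : ℝ) ∈ Icc (a i) (b i)}

theorem NS_box (e : OrthonormalBasis (Fin 3) ℝ (E 3)) (a b : Fin 3 → ℝ) : NS (box e a b) := by
  set Z : Set (E 2 × ℝ) := {z | (z.1 0 ∈ Icc (a 0) (b 0) ∧ z.1 1 ∈ Icc (a 1) (b 1)) ∧
    z.2 ∈ Icc (a 2) (b 2)} with hZ
  have hZm : MeasurableSet Z := by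
    have h0 : Measurable fun z : E 2 × ℝ => z.1 0 := by fun_prop
    have h1 : Measurable fun z : E 2 × ℝ => z.1 1 := by fun_prop
    exact ((h0 measurableSet_Icc).inter (h1 measurableSet_Icc)).inter
      (measurable_snd measurableSet_Icc)
  refine ⟨e, e 2, Z, unit_e e, inner_e e, hZm, ?_, ?_⟩
  · intro y y'
    by_cases h : y' 0 ∈ Icc (a 0) (b 0) ∧ y' 1 ∈ Icc (a 1) (b 1)
    · left
      exact fun s hs => ⟨h, hs.2⟩
    · right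
      exact fun s hs => absurd hs.1 h
  · ext ξ
    simp only [box, XX, hZ, mem_ofPred_eq, Fin.forall_fin_succ, Fin.forall_fin_zero_pi]
    constructor
    · intro h
      exact ⟨⟨h.1, h.2.1⟩, h.2.2.1⟩
    · intro h
      exact ⟨h.1.1, h.1.2, h.2, fun i => i.elim0⟩

/-- a set nested in linear coordinates -/
def NL (P : Set (E 3)) : Prop :=
  ∃ (v : Fin 3 → E 3) (Q : Set ((ℝ × ℝ) × ℝ)), LinearIndependent ℝ v ∧ MeasurableSet Q ∧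
    (∀ y y' s s', (y, s) ∈ Q → (y', s') ∈ Q → (y, s') ∈ Q ∨ (y', s) ∈ Q) ∧
    P = {ξ | (((⟪v 0, ξ⟫ : ℝ), (⟪v 1, ξ⟫ : ℝ)), (⟪v 2, ξ⟫ : ℝ)) ∈ Q}

/-- a frame whose last vector is orthogonal to `v 0` and `v 1` -/
theorem exists_frame {v : Fin 3 → E 3} (hv : LinearIndependent ℝ v) :
    ∃ e : OrthonormalBasis (Fin 3) ℝ (E 3), (⟪v 0, e 2⟫ : ℝ) = 0 ∧ (⟪v 1, e 2⟫ : ℝ) = 0 ∧
      (⟪v 2, e 2⟫ : ℝ) ≠ 0 := by
  have hK : (Submodule.span ℝ (range ![v 0, v 1])) ≠ ⊤ := by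
    intro h
    have h1 := finrank_range_le_card (R := ℝ) ![v 0, v 1]
    unfold Set.finrank at h1
    rw [h, finrank_top, finrank_euclideanSpace, Fintype.card_fin, Fintype.card_fin] at h1
    norm_num at h1
  have hK2 : (Submodule.span ℝ (range ![v 0, v 1]))ᗮ ≠ ⊥ := by
    intro h
    exact hK (Submodule.orthogonal_eq_bot_iff.1 h)
  obtain ⟨z, hz, hz0⟩ := Submodule.exists_mem_ne_zero_of_ne_bot hK2
  have hzn : ‖z‖ ≠ 0 := norm_ne_zero_iff.2 hz0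
  have h0 : (⟪v 0, z⟫ : ℝ) = 0 := hz (v 0) (Submodule.subset_span ⟨0, rfl⟩)
  have h1 : (⟪v 1, z⟫ : ℝ) = 0 := hz (v 1) (Submodule.subset_span ⟨1, rfl⟩)
  have ho : Orthonormal ℝ (({2} : Set (Fin 3)).domRestrict (fun _ : Fin 3 => (‖z‖⁻¹ • z : E 3))) := by
    constructor
    · intro i
      show ‖(‖z‖⁻¹ • z : E 3)‖ = 1
      rw [norm_smul, norm_inv, norm_norm]
      exact inv_mul_cancel₀ hzn
    · intro i j hij
      exact absurd (Subsingleton.elim i j) hij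
  obtain ⟨b, hb⟩ := ho.exists_orthonormalBasis_extension_of_card_eq (by simp)
  refine ⟨b, ?_, ?_, ?_⟩
  · rw [hb 2 (mem_singleton 2), real_inner_smul_right, h0, mul_zero]
  · rw [hb 2 (mem_singleton 2), real_inner_smul_right, h1, mul_zero]
  · rw [hb 2 (mem_singleton 2), real_inner_smul_right]
    refine mul_ne_zero (inv_ne_zero hzn) ?_
    intro h2
    have htop := hv.span_eq_top_of_card_eq_finrank (by simp)
    have hzmem : z ∈ Submodule.span ℝ (range v) := by rw [htop]; trivial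
    have horth : ∀ y ∈ Submodule.span ℝ (range v), (⟪y, z⟫ : ℝ) = 0 := by
      intro y hy
      induction hy using Submodule.span_induction with
      | mem x hx =>
        obtain ⟨i, rfl⟩ := hx
        fin_cases i
        · exact h0
        · exact h1
        · exact h2
      | zero => exact inner_zero_left _
      | add x y _ _ hx hy => rw [inner_add_left, hx, hy, add_zero]
      | smul a x _ hx => rw [real_inner_smul_left, hx, mul_zero]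
    exact hz0 (inner_self_eq_zero.1 (horth z hzmem))

theorem NL.ns {P : Set (E 3)} (hP : NL P) : NS P := by
  obtain ⟨v, Q, hv, hQm, hQ, rfl⟩ := hP
  obtain ⟨e, he0, he1, he2⟩ := exists_frame hv
  have hv2 : v 2 ≠ 0 := fun h => he2 (by rw [h, inner_zero_left])
  have hv2n : ‖v 2‖ ≠ 0 := norm_ne_zero_iff.2 hv2
  set n : E 3 := ‖v 2‖⁻¹ • v 2 with hn
  have hnn : ‖n‖ = 1 := by
    rw [hn, norm_smul, norm_inv, norm_norm]
    exact inv_mul_cancel₀ hv2n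
  have hn1 : n 0 ^ 2 + n 1 ^ 2 + n 2 ^ 2 = 1 := by
    have h1 : ‖n‖ ^ 2 = 1 := by rw [hnn]; norm_num
    rw [EuclideanSpace.norm_sq_eq, Fin.sum_univ_three] at h1
    simpa using h1
  have hne : (⟪n, e 2⟫ : ℝ) ≠ 0 := by
    rw [hn, real_inner_smul_left]
    exact mul_ne_zero (inv_ne_zero hv2n) he2
  set g : E 2 × ℝ → (ℝ × ℝ) × ℝ := fun z => ((z.1 0 * ⟪v 0, e 0⟫ + z.1 1 * ⟪v 0, e 1⟫,
    z.1 0 * ⟪v 1, e 0⟫ + z.1 1 * ⟪v 1, e 1⟫), ‖v 2‖ * z.2) with hg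
  have hgm : Measurable g := by
    have h0 : Measurable fun z : E 2 × ℝ => z.1 0 := by fun_prop
    have h1 : Measurable fun z : E 2 × ℝ => z.1 1 := by fun_prop
    exact (((h0.mul_const _).add (h1.mul_const _)).prodMk
      ((h0.mul_const _).add (h1.mul_const _))).prodMk (measurable_const.mul measurable_snd)
  have hexp : ∀ a ξ : E 3, (⟪a, ξ⟫ : ℝ) = ⟪e 0, ξ⟫ * ⟪a, e 0⟫ + ⟪e 1, ξ⟫ * ⟪a, e 1⟫ +
      ⟪e 2, ξ⟫ * ⟪a, e 2⟫ := by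
    intro a ξ
    have h1 := e.sum_inner_mul_inner a ξ
    rw [Fin.sum_univ_three] at h1
    rw [← h1]
    ring
  refine ⟨e, n, g ⁻¹' Q, hn1, hne, hgm hQm, ?_, ?_⟩
  · intro y y'
    by_contra h
    push Not at h
    obtain ⟨h1, h2⟩ := h
    rw [not_subset] at h1 h2
    obtain ⟨s, hs1, hs2⟩ := h1
    obtain ⟨s', hs1', hs2'⟩ := h2
    rcases hQ _ _ _ _ hs1 hs1' with h3 | h3
    · exact hs2' h3
    · exact hs2 h3
  · ext ξ
    have h0 : (⟪v 0, ξ⟫ : ℝ) = (yc e ξ) 0 * ⟪v 0, e 0⟫ + (yc e ξ) 1 * ⟪v 0, e 1⟫ := by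
      rw [hexp (v 0) ξ, he0, mul_zero, add_zero]
      rfl
    have h1 : (⟪v 1, ξ⟫ : ℝ) = (yc e ξ) 0 * ⟪v 1, e 0⟫ + (yc e ξ) 1 * ⟪v 1, e 1⟫ := by
      rw [hexp (v 1) ξ, he1, mul_zero, add_zero]
      rfl
    have h2 : (⟪v 2, ξ⟫ : ℝ) = ‖v 2‖ * ⟪n, ξ⟫ := by
      rw [hn, real_inner_smul_left, ← mul_assoc, mul_inv_cancel₀ hv2n, one_mul]
    show (((⟪v 0, ξ⟫ : ℝ), (⟪v 1, ξ⟫ : ℝ)), (⟪v 2, ξ⟫ : ℝ)) ∈ Q ↔
      g (yc e ξ, (⟪n, ξ⟫ : ℝ)) ∈ Q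
    simp only [hg]
    rw [← h0, ← h1, ← h2]

/-- the box lemma -/
def BoxLemma : Prop := ∃ C : ℝ, 0 < C ∧ ∀ X : Set (EuclideanSpace ℝ (Fin 3)), Convex ℝ X →
  volume X ≠ 0 → volume X ≠ ⊤ →
  ∃ (e : OrthonormalBasis (Fin 3) ℝ (EuclideanSpace ℝ (Fin 3))) (a b : Fin 3 → ℝ),
    (∀ ξ ∈ X, ∀ i, (⟪e i, ξ⟫ : ℝ) ∈ Icc (a i) (b i)) ∧
    volume {ξ : EuclideanSpace ℝ (Fin 3) | ∀ i, (⟪e i, ξ⟫ : ℝ) ∈ Icc (a i) (b i)} ≤
      ENNReal.ofReal C * volume X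

/-- covers by nested and convex sets -/
def Cov2 (K : ℝ≥0∞) (θ : ℝ) (X : Set (E 3)) : Prop :=
  ∃ P : ℕ → Set (E 3), (∀ i, NL (P i) ∨ Convex ℝ (P i)) ∧ X ⊆ ⋃ i, P i ∧
    ∑' i, volume (P i) ^ (1 / 3 : ℝ) ≤ K * (1 + volume X) ^ θ

theorem cov_of (hB : BoxLemma) : ∃ M : ℝ≥0∞, M ≠ ∞ ∧ 1 ≤ M ∧ ∀ (K : ℝ≥0∞) (θ : ℝ) (X : Set (E 3)),
    0 ≤ θ → K ≠ ∞ → volume X ≠ ∞ → Cov2 K θ X → Cov (M * K) θ X := by
  obtain ⟨C, hC0, hC⟩ := hB
  set M : ℝ≥0∞ := (1 + ENNReal.ofReal C) ^ (1 / 3 : ℝ) with hM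
  have h1C : 1 ≤ 1 + ENNReal.ofReal C := le_self_add
  have hM1 : 1 ≤ M := by
    calc (1 : ℝ≥0∞) = 1 ^ (1 / 3 : ℝ) := (ENNReal.one_rpow _).symm
      _ ≤ M := ENNReal.rpow_le_rpow h1C (by norm_num)
  refine ⟨M, ENNReal.rpow_ne_top_of_nonneg (by norm_num)
    (ENNReal.add_ne_top.2 ⟨by norm_num, ENNReal.ofReal_ne_top⟩), hM1, ?_⟩
  intro K θ X hθ hKt hXt ⟨P, hP, hX, hsum⟩
  have hft : ∑' i, volume (P i) ^ (1 / 3 : ℝ) ≠ ∞ := ne_top_of_le_ne_top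
    (ENNReal.mul_ne_top hKt (ENNReal.rpow_ne_top_of_nonneg hθ
      (ENNReal.add_ne_top.2 ⟨by norm_num, hXt⟩))) hsum
  have hvt : ∀ i, volume (P i) ≠ ∞ := by
    intro i h
    apply hft
    rw [← top_le_iff]
    calc ∞ = volume (P i) ^ (1 / 3 : ℝ) := by rw [h, ENNReal.top_rpow_of_pos (by norm_num)]
      _ ≤ _ := ENNReal.le_tsum (f := fun i => volume (P i) ^ (1 / 3 : ℝ)) i
  have hex : ∀ i, ∃ R : Set (E 3), NS R ∧ volume (P i \ R) = 0 ∧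
      volume R ≤ (1 + ENNReal.ofReal C) * volume (P i) := by
    intro i
    rcases hP i with h | h
    · exact ⟨P i, h.ns, by simp, le_mul_of_one_le_left zero_le h1C⟩
    · by_cases h0 : volume (P i) = 0
      · refine ⟨∅, NS_empty, by simpa using h0, by simp⟩
      · obtain ⟨e, a, b, h1, h2⟩ := hC (P i) h h0 (hvt i)
        refine ⟨box e a b, NS_box e a b, ?_, ?_⟩
        · have h3 : P i ⊆ box e a b := h1
          rw [sdiff_eq_empty.2 h3, measure_empty]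
        · refine h2.trans ?_
          gcongr
          exact le_add_self
  choose R hRN hR0 hRv using hex
  refine ⟨R, hRN, ?_, ?_⟩
  · have h1 : X \ ⋃ i, R i ⊆ ⋃ i, P i \ R i := by
      rintro ξ ⟨h2, h3⟩
      obtain ⟨i, hi⟩ := mem_iUnion.1 (hX h2)
      exact mem_iUnion.2 ⟨i, hi, fun h4 => h3 (mem_iUnion.2 ⟨i, h4⟩)⟩
    exact measure_mono_null h1 (measure_iUnion_null hR0)
  · calc ∑' i, volume (R i) ^ (1 / 3 : ℝ)
        ≤ ∑' i, M * volume (P i) ^ (1 / 3 : ℝ) := by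
          refine ENNReal.tsum_le_tsum fun i => ?_
          calc volume (R i) ^ (1 / 3 : ℝ)
              ≤ ((1 + ENNReal.ofReal C) * volume (P i)) ^ (1 / 3 : ℝ) :=
                ENNReal.rpow_le_rpow (hRv i) (by norm_num)
            _ = _ := ENNReal.mul_rpow_of_nonneg _ _ (by norm_num)
      _ = M * ∑' i, volume (P i) ^ (1 / 3 : ℝ) := ENNReal.tsum_mul_left
      _ ≤ M * (K * (1 + volume X) ^ θ) := by gcongr
      _ = _ := by rw [mul_assoc]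

/-- the weighted estimate for weights whose level sets are covered by nested and convex sets -/
theorem WTfin (hB : BoxLemma) {q θ : ℝ} {K : ℝ≥0∞} (hq : 3 < q) (hθ0 : 0 ≤ θ) (hθ : θ < 1 - 2 / q)
    (hKt : K ≠ ∞) : ∃ C : ℝ≥0∞, C ≠ ∞ ∧
    ∀ W : E 3 → ℝ≥0∞, Measurable W → (∀ c : ℝ≥0∞, c ≠ 0 → c ≠ ∞ →
      volume {ξ : E 3 | c < W ξ} ≠ 0 → Cov2 K θ {ξ : E 3 | c < W ξ}) →
      ∀ f : E 2 → ℂ, Ok f →
      ∫⁻ ξ, W ξ * ‖EE f ξ‖ₑ ^ 2 ≤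
        C * (∫⁻ ξ : E 3, W ξ ^ (q / (q - 2))) ^ ((q - 2) / q) * Nq q f ^ 2 := by
  obtain ⟨M, hMt, hM1, hM⟩ := cov_of hB
  have hK' : 1 ≤ M * (1 + K) := by
    calc (1 : ℝ≥0∞) = 1 * 1 := (one_mul 1).symm
      _ ≤ M * (1 + K) := mul_le_mul' hM1 le_self_add
  have hK't : 1 + K ≠ ∞ := ENNReal.add_ne_top.2 ⟨by norm_num, hKt⟩
  obtain ⟨C, hCt, hC⟩ := WTc hq hθ0 hθ hK' (ENNReal.mul_ne_top hMt hK't)
  refine ⟨C, hCt, fun W hW hcov f hf => hC W hW ?_ f hf⟩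
  intro c hc0 hct hv hvt
  obtain ⟨P, hP, hX, hsum⟩ := hcov c hc0 hct hv
  refine hM (1 + K) θ _ hθ0 hK't hvt ⟨P, hP, hX, hsum.trans ?_⟩
  gcongr
  exact le_add_self

end Pool.Agent.K4H46.OW
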