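import Mathlib

/-! # A convex set of finite positive volume in space lies in a box of comparable volume -/

set_option autoImplicit false

open MeasureTheory Set
open scoped RealInnerProductSpace

namespace Pool.Agent.K4H46.OW

namespace BoxAux

abbrev V := EuclideanSpace ℝ (Fin 3)

lemma half_sup {α : Type*} {s : Set α} (hs : s.Nonempty) (f : α → ℝ) (B : ℝ)
    (hB : ∀ x ∈ s, f x ≤ B) (h0 : ∀ x ∈ s, 0 ≤ f x) : ∃ x ∈ s, ∀ y ∈ s, f y ≤ 2 * f x := by
  have hbd : BddAbove (f '' s) := ⟨B, by rintro _ ⟨x, hx, rfl⟩; exact hB x hx⟩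
  by_cases hM : sSup (f '' s) ≤ 0
  · obtain ⟨x, hx⟩ := hs
    refine ⟨x, hx, fun y hy => ?_⟩
    have h1 : f y ≤ sSup (f '' s) := le_csSup hbd (mem_image_of_mem f hy)
    have := h0 x hx
    linarith
  · push Not at hM
    obtain ⟨_, ⟨x, hx, rfl⟩, hlt⟩ := exists_lt_of_lt_csSup (hs.image f)
      (show sSup (f '' s) / 2 < sSup (f '' s) by linarith)
    refine ⟨x, hx, fun y hy => ?_⟩
    have h1 : f y ≤ sSup (f '' s) := le_csSup hbd (mem_image_of_mem f hy)
    linarith

/-- coordinates -/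
noncomputable def g (e : OrthonormalBasis (Fin 3) ℝ V) (ξ : V) : Fin 3 → ℝ := fun i => ⟪e i, ξ⟫

lemma g_mp (e : OrthonormalBasis (Fin 3) ℝ V) :
    MeasurePreserving (g e) volume volume := by
  have h := (PiLp.volume_preserving_ofLp (Fin 3)).comp e.measurePreserving_repr
  have : (g e) = (@WithLp.ofLp 2 (Fin 3 → ℝ)) ∘ e.repr := by
    funext ξ
    funext i
    simp [g, OrthonormalBasis.repr_apply_apply]
  rw [this]
  exact h

lemma g_inj (e : OrthonormalBasis (Fin 3) ℝ V) {ξ η : V} (h : g e ξ = g e η) : ξ = η := by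
  apply e.repr.injective
  ext i
  simpa [g, OrthonormalBasis.repr_apply_apply] using congrFun h i

lemma box_vol (e : OrthonormalBasis (Fin 3) ℝ V) (a b : Fin 3 → ℝ) :
    volume {ξ : V | ∀ i, (⟪e i, ξ⟫ : ℝ) ∈ Icc (a i) (b i)} = ∏ i, ENNReal.ofReal (b i - a i) := by
  have h1 : {ξ : V | ∀ i, (⟪e i, ξ⟫ : ℝ) ∈ Icc (a i) (b i)} = g e ⁻¹' (Icc a b) := by
    ext ξ
    simp only [mem_ofPred_eq, mem_preimage, mem_Icc, Pi.le_def, g]
    exact ⟨fun h => ⟨fun i => (h i).1, fun i => (h i).2⟩, fun h i => ⟨h.1 i, h.2 i⟩⟩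
  rw [h1, (g_mp e).measure_preimage measurableSet_Icc.nullMeasurableSet, Real.volume_Icc_pi]

/-- a convex set contains a third of a parallelepiped -/
lemma par (X : Set V) (hX : Convex ℝ X) (e : OrthonormalBasis (Fin 3) ℝ V) (p₀ : V)
    (p : Fin 3 → V) (h₀ : p₀ ∈ X) (hp : ∀ j, p j ∈ X) :
    ENNReal.ofReal (|(Matrix.of fun i j => (⟪e i, p j - p₀⟫ : ℝ)).det| / 27) ≤ volume X := by
  set A : Matrix (Fin 3) (Fin 3) ℝ := Matrix.of fun i j => (⟪e i, p j - p₀⟫ : ℝ) with hA
  set Q : Set (Fin 3 → ℝ) := Icc (fun _ => 0) (fun _ => 1 / 3) with hQ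
  set S : Set (Fin 3 → ℝ) := (fun y => g e p₀ + y) '' (Matrix.toLin' A '' Q) with hS
  have hSc : IsCompact S := by
    refine IsCompact.image ?_ (by fun_prop)
    exact isCompact_Icc.image (LinearMap.continuous_of_finiteDimensional _)
  have hsub : g e ⁻¹' S ⊆ X := by
    intro ξ hξ
    obtain ⟨_, ⟨t, ht, rfl⟩, hξt⟩ := hξ
    have hg : g e (p₀ + ∑ j, t j • (p j - p₀)) = g e ξ := by
      rw [← hξt]
      funext i
      simp only [g, inner_add_right, inner_sum, inner_smul_right, Pi.add_apply, Matrix.toLin'_apply,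
        Matrix.mulVec, dotProduct, hA, Matrix.of_apply]
      congr 1
      exact Finset.sum_congr rfl (fun j _ => by ring)
    rw [← g_inj e hg]
    have ht0 : ∀ j, 0 ≤ t j := fun j => ht.1 j
    have ht1 : ∀ j, t j ≤ 1 / 3 := fun j => ht.2 j
    have hsum : p₀ + ∑ j, t j • (p j - p₀) =
        (1 - ∑ j, t j) • p₀ + ∑ j, t j • p j := by
      simp only [Fin.sum_univ_three, smul_sub, sub_smul, one_smul, add_smul]
      abel
    rw [hsum]
    have hle : ∑ j, t j ≤ 1 := by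
      rw [Fin.sum_univ_three]
      linarith [ht1 0, ht1 1, ht1 2]
    have hmem := hX.sum_mem (t := (Finset.univ : Finset (Option (Fin 3))))
      (w := fun o => o.elim (1 - ∑ j, t j) t) (z := fun o => o.elim p₀ p)
      (by
        intro o _
        cases o with
        | none => simpa using hle
        | some j => exact ht0 j)
      (by rw [Fintype.sum_option]; simp)
      (by
        intro o _
        cases o with
        | none => exact h₀
        | some j => exact hp j)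
    rw [Fintype.sum_option] at hmem
    exact hmem
  have hvol : volume S = ENNReal.ofReal (|A.det| / 27) := by
    rw [hS, Set.image_add_left, measure_preimage_add, Measure.addHaar_image_linearMap,
      LinearMap.det_toLin', hQ, Real.volume_Icc_pi]
    rw [Finset.prod_const, Finset.card_univ, Fintype.card_fin, ← ENNReal.ofReal_pow (by norm_num),
      ← ENNReal.ofReal_mul (abs_nonneg _)]
    congr 1
    norm_num
    ring
  calc ENNReal.ofReal (|A.det| / 27) = volume S := hvol.symm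
    _ = volume (g e ⁻¹' S) :=
        ((g_mp e).measure_preimage hSc.isClosed.measurableSet.nullMeasurableSet).symm
    _ ≤ volume X := measure_mono hsub

/-- an orthonormal basis with two given members -/
lemma basis_two {u v : V} (hu : ‖u‖ = 1) (hv : ‖v‖ = 1) (huv : (⟪u, v⟫ : ℝ) = 0) :
    ∃ e : OrthonormalBasis (Fin 3) ℝ V, e 0 = u ∧ e 1 = v := by
  have hcard : Module.finrank ℝ V = Fintype.card (Fin 3) := by simp
  have ho : Orthonormal ℝ (({0, 1} : Set (Fin 3)).domRestrict ![u, v, 0]) := by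
    rw [orthonormal_iff_ite]
    rintro ⟨i, hi⟩ ⟨j, hj⟩
    simp only [mem_insert_iff, mem_singleton_iff] at hi hj
    rcases hi with rfl | rfl <;> rcases hj with rfl | rfl
    · simp [Set.domRestrict_apply, hu]
    · simpa [Set.domRestrict_apply] using huv
    · simpa [Set.domRestrict_apply, real_inner_comm] using huv
    · simp [Set.domRestrict_apply, hv]
  obtain ⟨e, he⟩ := ho.exists_orthonormalBasis_extension_of_card_eq hcard
  exact ⟨e, by simpa using he 0 (by simp), by simpa using he 1 (by simp)⟩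

/-- an orthonormal basis with one given member -/
lemma basis_one {u : V} (hu : ‖u‖ = 1) : ∃ e : OrthonormalBasis (Fin 3) ℝ V, e 0 = u := by
  have hcard : Module.finrank ℝ V = Fintype.card (Fin 3) := by simp
  have ho : Orthonormal ℝ (({0} : Set (Fin 3)).domRestrict ![u, 0, 0]) := by
    rw [orthonormal_iff_ite]
    rintro ⟨i, hi⟩ ⟨j, hj⟩
    simp only [mem_singleton_iff] at hi hj
    subst hi hj
    simp [Set.domRestrict_apply, hu]
  obtain ⟨e, he⟩ := ho.exists_orthonormalBasis_extension_of_card_eq hcard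
  exact ⟨e, by simpa using he 0 (by simp)⟩

lemma bounded (X : Set V) (hX : Convex ℝ X) (h0 : volume X ≠ 0) (h1 : volume X ≠ ⊤) :
    ∃ c ∈ X, ∃ D : ℝ, ∀ x ∈ X, ‖x - c‖ ≤ D := by
  have hint : (interior X).Nonempty := by
    by_contra hemp
    rw [not_nonempty_iff_eq_empty] at hemp
    have hfr : volume (frontier X) = 0 := hX.addHaar_frontier volume
    have hsub : X ⊆ frontier X := by
      intro x hx
      rw [frontier, hemp, sdiff_empty]
      exact subset_closure hx
    exact h0 (measure_mono_null hsub hfr)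
  obtain ⟨c, hc⟩ := hint
  rw [mem_interior_iff_mem_nhds, Metric.mem_nhds_iff] at hc
  obtain ⟨r, hr, hball⟩ := hc
  have hcX : c ∈ X := hball (Metric.mem_ball_self hr)
  refine ⟨c, hcX, 108 * (volume X).toReal / r ^ 2, ?_⟩
  intro x hx
  by_cases hxc : x = c
  · rw [hxc, sub_self, norm_zero]; positivity
  have hn : 0 < ‖x - c‖ := norm_pos_iff.2 (sub_ne_zero.2 hxc)
  obtain ⟨e, he⟩ := basis_one (u := (‖x - c‖⁻¹) • (x - c)) (by
    rw [norm_smul, norm_inv, norm_norm, inv_mul_cancel₀ hn.ne'])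
  have hmem : ∀ i, c + (r / 2) • e i ∈ X := by
    intro i
    apply hball
    rw [Metric.mem_ball, dist_eq_norm, add_sub_cancel_left, norm_smul, e.norm_eq_one, mul_one,
      Real.norm_eq_abs, abs_of_pos (by positivity)]
    linarith
  have hp := par X hX e c ![x, c + (r / 2) • e 1, c + (r / 2) • e 2] hcX (by
    intro j
    fin_cases j
    · exact hx
    · exact hmem 1
    · exact hmem 2)
  have hxe : x - c = ‖x - c‖ • e 0 := by
    rw [he, smul_smul, mul_inv_cancel₀ hn.ne', one_smul]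
  have hee : ∀ i j, (⟪e i, e j⟫ : ℝ) = if i = j then 1 else 0 :=
    fun i j => orthonormal_iff_ite.1 e.orthonormal i j
  have hdet : (Matrix.of fun i j => (⟪e i, (![x, c + (r / 2) • e 1, c + (r / 2) • e 2] j : V) - c⟫ : ℝ)).det
      = ‖x - c‖ * (r / 2) ^ 2 := by
    rw [Matrix.det_fin_three]
    simp only [Matrix.of_apply, Matrix.cons_val_zero, Matrix.cons_val_one, Matrix.cons_val,
      add_sub_cancel_left]
    rw [hxe]
    simp only [inner_smul_right, hee, norm_smul, e.norm_eq_one, norm_norm]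
    simp
    ring
  rw [hdet, abs_of_pos (by positivity)] at hp
  have hp2 := ENNReal.toReal_mono h1 hp
  rw [ENNReal.toReal_ofReal (by positivity)] at hp2
  rw [le_div_iff₀ (by positivity)]
  have : ‖x - c‖ * (r / 2) ^ 2 / 27 * 108 ≤ (volume X).toReal * 108 := by
    apply mul_le_mul_of_nonneg_right hp2 (by norm_num)
  nlinarith [this]

end BoxAux

open BoxAux in
theorem box_of_convex : ∃ C : ℝ, 0 < C ∧ ∀ X : Set (EuclideanSpace ℝ (Fin 3)), Convex ℝ X →
    volume X ≠ 0 → volume X ≠ ⊤ →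
    ∃ (e : OrthonormalBasis (Fin 3) ℝ (EuclideanSpace ℝ (Fin 3))) (a b : Fin 3 → ℝ),
      (∀ ξ ∈ X, ∀ i, (⟪e i, ξ⟫ : ℝ) ∈ Icc (a i) (b i)) ∧
      volume {ξ : EuclideanSpace ℝ (Fin 3) | ∀ i, (⟪e i, ξ⟫ : ℝ) ∈ Icc (a i) (b i)} ≤
        ENNReal.ofReal C * volume X := by
  refine ⟨1728, by norm_num, ?_⟩
  intro X hX h0 h1
  obtain ⟨x₀, hx₀, D, hD⟩ := bounded X hX h0 h1
  have hne : X.Nonempty := ⟨x₀, hx₀⟩
  -- first point
  obtain ⟨x₁, hx₁, hm₁⟩ := half_sup hne (fun x => ‖x - x₀‖) D hD (fun x _ => norm_nonneg _)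
  have hl1 : 0 < ‖x₁ - x₀‖ := by
    by_contra hcon
    have hz : ‖x₁ - x₀‖ = 0 := le_antisymm (not_lt.1 hcon) (norm_nonneg _)
    have hsub : X ⊆ {x₀} := by
      intro y hy
      have := hm₁ y hy
      rw [hz, mul_zero] at this
      have h2 : ‖y - x₀‖ = 0 := le_antisymm this (norm_nonneg _)
      rw [mem_singleton_iff]
      exact sub_eq_zero.1 (norm_eq_zero.1 h2)
    exact h0 (measure_mono_null hsub (measure_singleton _))
  set u : V := (‖x₁ - x₀‖⁻¹) • (x₁ - x₀) with hu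
  have hu1 : ‖u‖ = 1 := by
    rw [hu, norm_smul, norm_inv, norm_norm, inv_mul_cancel₀ hl1.ne']
  have hx1u : x₁ - x₀ = ‖x₁ - x₀‖ • u := by
    rw [hu, smul_smul, mul_inv_cancel₀ hl1.ne', one_smul]
  -- projection
  set P : V → V := fun v => v - (⟪u, v⟫ : ℝ) • u with hP
  have hPn : ∀ v, ‖P v‖ ≤ 2 * ‖v‖ := by
    intro v
    calc ‖P v‖ ≤ ‖v‖ + ‖(⟪u, v⟫ : ℝ) • u‖ := norm_sub_le _ _
      _ ≤ ‖v‖ + ‖v‖ := by
          rw [norm_smul, hu1, mul_one]
          have := norm_inner_le_norm (𝕜 := ℝ) u v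
          rw [hu1, one_mul] at this
          linarith
      _ = 2 * ‖v‖ := by ring
  have huP : ∀ v, (⟪u, P v⟫ : ℝ) = 0 := by
    intro v
    rw [hP]
    simp only
    rw [inner_sub_right, inner_smul_right, real_inner_self_eq_norm_sq, hu1]
    ring
  obtain ⟨x₂, hx₂, hm₂⟩ := half_sup hne (fun x => ‖P (x - x₀)‖) (2 * D)
    (fun x hx => (hPn _).trans (by linarith [hD x hx])) (fun x _ => norm_nonneg _)
  -- the basis
  obtain ⟨e, he0, he1⟩ : ∃ e : OrthonormalBasis (Fin 3) ℝ V, e 0 = u ∧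
      (‖P (x₂ - x₀)‖ ≠ 0 → e 1 = (‖P (x₂ - x₀)‖⁻¹) • P (x₂ - x₀)) := by
    by_cases hz : ‖P (x₂ - x₀)‖ = 0
    · obtain ⟨e, he⟩ := basis_one hu1
      exact ⟨e, he, fun h => absurd hz h⟩
    · obtain ⟨e, he, he'⟩ := basis_two (v := (‖P (x₂ - x₀)‖⁻¹) • P (x₂ - x₀)) hu1
        (by rw [norm_smul, norm_inv, norm_norm, inv_mul_cancel₀ hz])
        (by rw [inner_smul_right, huP, mul_zero])
      exact ⟨e, he, fun _ => he'⟩
  have hee : ∀ i j, (⟪e i, e j⟫ : ℝ) = if i = j then 1 else 0 :=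
    fun i j => orthonormal_iff_ite.1 e.orthonormal i j
  obtain ⟨x₃, hx₃, hm₃⟩ := half_sup hne (fun x => |(⟪e 2, x - x₀⟫ : ℝ)|) D
    (fun x hx => by
      have := abs_real_inner_le_norm (e 2) (x - x₀)
      rw [e.norm_eq_one, one_mul] at this
      exact this.trans (hD x hx)) (fun x _ => abs_nonneg _)
  set l : Fin 3 → ℝ := ![‖x₁ - x₀‖, ‖P (x₂ - x₀)‖, |(⟪e 2, x₃ - x₀⟫ : ℝ)|] with hl
  have hl0 : ∀ i, 0 ≤ l i := by
    intro i
    fin_cases i
    · exact norm_nonneg _
    · exact norm_nonneg _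
    · exact abs_nonneg _
  have hbound : ∀ ξ ∈ X, ∀ i, |(⟪e i, ξ - x₀⟫ : ℝ)| ≤ 2 * l i := by
    intro ξ hξ i
    fin_cases i
    · have := abs_real_inner_le_norm (e 0) (ξ - x₀)
      rw [e.norm_eq_one, one_mul] at this
      exact this.trans (hm₁ ξ hξ)
    · have hPe' : ∀ v : V, (⟪e 1, v⟫ : ℝ) = ⟪e 1, P v⟫ := by
        intro v
        have : P v = v - (⟪u, v⟫ : ℝ) • e 0 := by rw [he0]
        rw [this, inner_sub_right, inner_smul_right, hee]
        simp
      have hPe := hPe' (ξ - x₀)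
      have := abs_real_inner_le_norm (e 1) (P (ξ - x₀))
      rw [e.norm_eq_one, one_mul] at this
      show |(⟪e 1, ξ - x₀⟫ : ℝ)| ≤ _
      rw [hPe]
      exact this.trans (hm₂ ξ hξ)
    · exact hm₃ ξ hξ
  refine ⟨e, fun i => ⟪e i, x₀⟫ - 2 * l i, fun i => ⟪e i, x₀⟫ + 2 * l i, ?_, ?_⟩
  · intro ξ hξ i
    have := abs_le.1 (hbound ξ hξ i)
    rw [inner_sub_right] at this
    constructor <;> linarith [this.1, this.2]
  · rw [box_vol]
    have hprod : ∏ i, ENNReal.ofReal ((⟪e i, x₀⟫ : ℝ) + 2 * l i - (⟪e i, x₀⟫ - 2 * l i)) =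
        ENNReal.ofReal (64 * (l 0 * l 1 * l 2)) := by
      rw [Fin.prod_univ_three, ← ENNReal.ofReal_mul (by linarith [hl0 0]),
        ← ENNReal.ofReal_mul (mul_nonneg (by linarith [hl0 0]) (by linarith [hl0 1]))]
      congr 1
      ring
    rw [hprod]
    by_cases hz : l 1 = 0
    · rw [hz]; simp
    have hz' : ‖P (x₂ - x₀)‖ ≠ 0 := hz
    have he1' := he1 hz'
    have hPx : P (x₂ - x₀) = l 1 • e 1 := by
      rw [he1', smul_smul]
      show _ = (‖P (x₂ - x₀)‖ * ‖P (x₂ - x₀)‖⁻¹) • _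
      rw [mul_inv_cancel₀ hz', one_smul]
    have hx2 : x₂ - x₀ = (⟪u, x₂ - x₀⟫ : ℝ) • e 0 + l 1 • e 1 := by
      rw [← hPx, he0, hP]
      simp
    have hp := par X hX e x₀ ![x₁, x₂, x₃] hx₀ (by
      intro j
      fin_cases j
      · exact hx₁
      · exact hx₂
      · exact hx₃)
    have hx1 : x₁ - x₀ = l 0 • e 0 := by rw [he0]; exact hx1u
    have hdet : (Matrix.of fun i j => (⟪e i, (![x₁, x₂, x₃] j : V) - x₀⟫ : ℝ)).det
        = l 0 * l 1 * ⟪e 2, x₃ - x₀⟫ := by
      rw [Matrix.det_fin_three]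
      simp only [Matrix.of_apply, Matrix.cons_val_zero, Matrix.cons_val_one, Matrix.cons_val]
      rw [hx1, hx2]
      simp only [inner_add_right, inner_smul_right, hee]
      simp
    rw [hdet, abs_mul, abs_of_nonneg (mul_nonneg (hl0 0) (hl0 1))] at hp
    have hl2 : |(⟪e 2, x₃ - x₀⟫ : ℝ)| = l 2 := rfl
    rw [hl2] at hp
    calc ENNReal.ofReal (64 * (l 0 * l 1 * l 2))
        = ENNReal.ofReal 1728 * ENNReal.ofReal (l 0 * l 1 * l 2 / 27) := by
          rw [← ENNReal.ofReal_mul (by norm_num)]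
          congr 1
          ring
      _ ≤ ENNReal.ofReal 1728 * volume X := by gcongr

end Pool.Agent.K4H46.OW
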